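import Pool.Agent.Helper25.PCap.GoalsA

/-!
# Packet A3: the centre is strictly inside
-/

set_option autoImplicit false

open MeasureTheory Set Filter Topology
open scoped ContDiff Real

noncomputable section

namespace Pool.Agent.Helper95.A3

open Pool.Agent.Helper25.PCap

/-- The local statement. -/
def Loc {κ : ℝ} (S : SFull κ) (c t : ℝ) : Prop := ∀ r w : ℝ, r < 1 →
    |r * Real.exp (-((1 - κ) * t)) - S.C0| < c * Real.exp (bb κ 2 * t) →
    |w| < c * Real.exp (bb κ 2 * t) → InS S t r w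

theorem Loc.mono {κ : ℝ} {S : SFull κ} {c c' t : ℝ} (h : Loc S c t) (hc : c' ≤ c) :
    Loc S c' t := by
  intro r w hr h1 h2
  have := Real.exp_pos (bb κ 2 * t)
  exact h r w hr (h1.trans_le (by nlinarith)) (h2.trans_le (by nlinarith))

theorem cont_u {κ : ℝ} (S : SFull κ) : Continuous S.u := S.cont

theorem near {κ : ℝ} (hκ : 0 < κ) (hκ1 : κ < 1) (h1 : GA1) (S : SFull κ) (t : ℝ) :
    ∀ᶠ p : ℝ × ℝ × ℝ in 𝓝 (t, S.C0 * Real.exp ((1 - κ) * t), 0),
      p.2.1 < 1 → InS S p.1 p.2.1 p.2.2 := by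
  have hcont := S.cont
  have hhalf := S.u_half t
  by_cases hc : S.C0 * Real.exp ((1 - κ) * t) < S.u (t, 0)
  · -- first case
    have hI : S.C0 * Real.exp ((1 - κ) * t) ∈ (fun ϑ => S.u (t, ϑ)) '' Ioo 0 (π / 2) := by
      have hc1 : ContinuousOn (fun ϑ => S.u (t, ϑ)) (Icc 0 (π / 2)) := by
        have : Continuous (fun ϑ => S.u (t, ϑ)) := by fun_prop
        exact this.continuousOn
      exact intermediate_value_Ioo' (by positivity) hc1 ⟨hhalf, hc⟩
    obtain ⟨ϑ, hϑ, hu⟩ := hI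
    have hin : InS S t (S.C0 * Real.exp ((1 - κ) * t)) 0 := by
      refine ⟨ϑ, hϑ.1, hϑ.2, hu, ?_⟩
      rw [abs_zero]
      exact S.om_pos t ϑ hϑ.1 hϑ.2
    exact ((h1 κ hκ hκ1 S).2 t _ 0 hin).mono fun p hp _ => hp
  · push Not at hc
    have ht : 0 < t := by
      by_contra hneg
      push Not at hneg
      exact absurd (S.u_zero t hneg) (not_lt.2 hc)
    have hu1 : ∀ s : ℝ, 0 < s → S.u (s, 0) = 1 := by
      intro s hs
      apply S.slit
      unfold SC
      simp [hs.le]
    rw [hu1 t ht] at hc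
    rcases hc.lt_or_eq with hc | hc
    · -- vacuous
      have : ∀ᶠ p : ℝ × ℝ × ℝ in 𝓝 (t, S.C0 * Real.exp ((1 - κ) * t), 0), 1 < p.2.1 := by
        have hcc : ContinuousAt (fun p : ℝ × ℝ × ℝ => p.2.1)
            (t, S.C0 * Real.exp ((1 - κ) * t), 0) := by fun_prop
        exact hcc.eventually (lt_mem_nhds hc)
      exact this.mono fun p hp hp' => absurd hp (not_lt.2 hp'.le)
    · rw [← hc]
      -- the stream function is positive near the point
      have hpos := S.om_slit t ht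
      have hcw : ContinuousWithinAt S.om {z | 0 ≤ z.2 ∧ z.2 ≤ π / 2 ∧ z ≠ (0, 0)} (t, 0) := by
        apply S.om_cont
        refine ⟨le_rfl, by positivity, ?_⟩
        intro h
        exact ht.ne' (congrArg Prod.fst h)
      have hev : ∀ᶠ z in 𝓝[{z | 0 ≤ z.2 ∧ z.2 ≤ π / 2 ∧ z ≠ (0, 0)}] (t, (0 : ℝ)),
          S.om (t, 0) / 2 < S.om z :=
        hcw.tendsto.eventually (lt_mem_nhds (by linarith))
      rw [eventually_nhdsWithin_iff, Metric.eventually_nhds_iff] at hev
      obtain ⟨η, hη, hηs⟩ := hev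
      set η' := min (η / 2) (min (π / 2) (t / 2)) with hη'
      have hη'0 : 0 < η' := by positivity
      have hη'1 : η' < η := (min_le_left _ _).trans_lt (by linarith)
      have hη'2 : η' ≤ π / 2 := (min_le_right _ _).trans (min_le_left _ _)
      have hη'3 : η' ≤ t / 2 := (min_le_right _ _).trans (min_le_right _ _)
      have hlt : S.u (t, η') < 1 := by
        apply S.lt1
        right
        have : 0 < Real.sin η' := Real.sin_pos_of_pos_of_lt_pi hη'0 (by linarith [Real.pi_pos])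
        exact this.ne'
      -- the eventual conditions
      have e1 : ∀ᶠ p : ℝ × ℝ × ℝ in 𝓝 (t, 1, 0), S.u (p.1, η') < p.2.1 := by
        have hA : ContinuousAt (fun p : ℝ × ℝ × ℝ => S.u (p.1, η')) (t, 1, 0) := by
          have : Continuous (fun p : ℝ × ℝ × ℝ => S.u (p.1, η')) := by fun_prop
          exact this.continuousAt
        have hB : ContinuousAt (fun p : ℝ × ℝ × ℝ => p.2.1) (t, 1, 0) := by fun_prop
        exact hA.eventually_lt hB hlt
      have e2 : ∀ᶠ p : ℝ × ℝ × ℝ in 𝓝 (t, 1, 0), |p.1 - t| < η' := by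
        have hA : ContinuousAt (fun p : ℝ × ℝ × ℝ => |p.1 - t|) (t, 1, 0) := by fun_prop
        apply hA.eventually_lt continuousAt_const
        simpa using hη'0
      have e3 : ∀ᶠ p : ℝ × ℝ × ℝ in 𝓝 (t, 1, 0), |p.2.2| < S.om (t, 0) / 2 := by
        have hA : ContinuousAt (fun p : ℝ × ℝ × ℝ => |p.2.2|) (t, 1, 0) := by fun_prop
        apply hA.eventually_lt continuousAt_const
        simpa using hpos
      filter_upwards [e1, e2, e3] with p hp1 hp2 hp3 hr
      obtain ⟨s, r, w⟩ := p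
      simp only at hp1 hp2 hp3 hr ⊢
      have hs0 : 0 < s := by
        have := (abs_lt.1 hp2).1
        linarith
      have hI : r ∈ (fun ϑ => S.u (s, ϑ)) '' Ioo 0 η' := by
        have hc1 : ContinuousOn (fun ϑ => S.u (s, ϑ)) (Icc 0 η') := by
          have : Continuous (fun ϑ => S.u (s, ϑ)) := by fun_prop
          exact this.continuousOn
        refine intermediate_value_Ioo' hη'0.le hc1 ⟨hp1, ?_⟩
        change r < S.u (s, 0)
        rw [hu1 s hs0]
        exact hr
      obtain ⟨ϑ, hϑ, hu⟩ := hI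
      refine ⟨ϑ, hϑ.1, hϑ.2.trans_le hη'2, hu, ?_⟩
      refine hp3.trans (hηs ?_ ⟨hϑ.1.le, hϑ.2.le.trans hη'2, ?_⟩)
      · rw [Prod.dist_eq, max_lt_iff, Real.dist_eq, Real.dist_eq]
        refine ⟨hp2.trans hη'1, ?_⟩
        simp only [sub_zero]
        rw [abs_of_pos hϑ.1]
        exact hϑ.2.trans hη'1
      · intro h
        exact hs0.ne' (congrArg Prod.fst h)

theorem loc {κ : ℝ} (hκ : 0 < κ) (hκ1 : κ < 1) (h1 : GA1) (S : SFull κ) (t : ℝ) :
    ∃ c : ℝ, 0 < c ∧ ∀ᶠ s in 𝓝 t, Loc S c s := by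
  have h := near hκ hκ1 h1 S t
  have hΦ : ContinuousAt (fun p : ℝ × ℝ × ℝ => ((p.1,
      (S.C0 + p.2.1 * Real.exp (bb κ 2 * p.1)) * Real.exp ((1 - κ) * p.1),
      p.2.2 * Real.exp (bb κ 2 * p.1)) : ℝ × ℝ × ℝ)) (t, 0, 0) := by fun_prop
  have h2 := hΦ.tendsto
  simp only [zero_mul, add_zero] at h2
  have h3 := h2.eventually h
  rw [Metric.eventually_nhds_iff] at h3
  obtain ⟨δ, hδ, h4⟩ := h3
  refine ⟨δ, hδ, ?_⟩
  rw [Metric.eventually_nhds_iff]
  refine ⟨δ, hδ, fun s hs r w hr hr' hw => ?_⟩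
  have hE := Real.exp_pos (bb κ 2 * s)
  have key : ∀ z : ℝ, z * Real.exp (-(bb κ 2 * s)) * Real.exp (bb κ 2 * s) = z := by
    intro z
    rw [mul_assoc, ← Real.exp_add]
    simp
  have key2 : ∀ z : ℝ, z * Real.exp (-((1 - κ) * s)) * Real.exp ((1 - κ) * s) = z := by
    intro z
    rw [mul_assoc, ← Real.exp_add]
    simp
  have bound : ∀ z : ℝ, |z| < δ * Real.exp (bb κ 2 * s) →
      |z * Real.exp (-(bb κ 2 * s))| < δ := by
    intro z hz
    rw [abs_mul, abs_of_pos (Real.exp_pos _)]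
    have h5 := mul_lt_mul_of_pos_right hz (Real.exp_pos (-(bb κ 2 * s)))
    rwa [mul_assoc δ, ← Real.exp_add, add_neg_cancel, Real.exp_zero, mul_one] at h5
  have h6 := h4 (y := (s, (r * Real.exp (-((1 - κ) * s)) - S.C0) * Real.exp (-(bb κ 2 * s)),
    w * Real.exp (-(bb κ 2 * s)))) ?_ ?_
  · simp only [key] at h6
    have h7 : (S.C0 + (r * Real.exp (-((1 - κ) * s)) - S.C0)) * Real.exp ((1 - κ) * s) = r := by
      rw [add_sub_cancel, key2]
    rwa [h7] at h6
  · rw [Prod.dist_eq, Prod.dist_eq, max_lt_iff, max_lt_iff, Real.dist_eq, Real.dist_eq,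
      Real.dist_eq]
    simp only [sub_zero]
    exact ⟨hs, bound _ hr', bound _ hw⟩
  · simp only [key]
    have h7 : (S.C0 + (r * Real.exp (-((1 - κ) * s)) - S.C0)) * Real.exp ((1 - κ) * s) = r := by
      rw [add_sub_cancel, key2]
    rwa [h7]

theorem pkA3 (h1 : GA1) (h2 : GA2) : GA3 := by
  intro κ hκ hκ1 S t₁
  obtain ⟨c, τ₁, _, hexp, him, hre⟩ := S.exp
  obtain ⟨tβ, htβ⟩ := h2 κ hκ hκ1 S c τ₁ hexp him hre (1 / 2) (by norm_num) (by norm_num)
  -- the compact part
  have hcomp : ∃ c' : ℝ, 0 < c' ∧ ∀ t ∈ Icc tβ t₁, Loc S c' t := by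
    refine isCompact_Icc.induction_on (p := fun s => ∃ c' : ℝ, 0 < c' ∧ ∀ t ∈ s, Loc S c' t)
      ?_ ?_ ?_ ?_
    · exact ⟨1, one_pos, fun t ht => absurd ht (notMem_empty t)⟩
    · rintro s s' hss ⟨c', hc', h⟩
      exact ⟨c', hc', fun t ht => h t (hss ht)⟩
    · rintro s s' ⟨c', hc', h⟩ ⟨c'', hc'', h'⟩
      refine ⟨min c' c'', lt_min hc' hc'', fun t ht => ?_⟩
      rcases ht with ht | ht
      · exact (h t ht).mono (min_le_left _ _)
      · exact (h' t ht).mono (min_le_right _ _)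
    · intro t _
      obtain ⟨c', hc', h⟩ := loc hκ hκ1 h1 S t
      exact ⟨{s | Loc S c' s}, mem_nhdsWithin_of_mem_nhds h, c', hc', fun s hs => hs⟩
  obtain ⟨c', hc', hK⟩ := hcomp
  -- the constants
  have hε : 0 < 1 - κ := by linarith
  have hB : 0 < BB κ S.C0 := by
    unfold BB
    have := S.C0pos
    positivity
  have ha : 0 < aa κ 2 := by
    unfold aa
    exact div_pos (add_pos_of_pos_of_nonneg hε (Real.sqrt_nonneg _)) two_pos
  set s := (c 2).re with hs
  set k := BB κ S.C0 * (aa κ 2 / 2) with hk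
  have hk0 : 0 < k := by positivity
  refine ⟨min c' (min (s / 4) (k * s / 4)), by positivity, fun t ht r w hr h3 h4 => ?_⟩
  rcases le_total tβ t with hle | hle
  · exact (hK t ⟨hle, ht⟩).mono (min_le_left _ _) r w hr h3 h4
  · set x := (r * Real.exp (-((1 - κ) * t)) - S.C0) * Real.exp (-(bb κ 2 * t)) / s with hx
    set y := w * Real.exp (-(bb κ 2 * t)) / (k * s) with hy
    have hm1 : min c' (min (s / 4) (k * s / 4)) ≤ s / 4 := (min_le_right _ _).trans (min_le_left _ _)
    have hm2 : min c' (min (s / 4) (k * s / 4)) ≤ k * s / 4 :=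
      (min_le_right _ _).trans (min_le_right _ _)
    have bound : ∀ z m : ℝ, |z| < m * Real.exp (bb κ 2 * t) →
        |z * Real.exp (-(bb κ 2 * t))| < m := by
      intro z m hz
      rw [abs_mul, abs_of_pos (Real.exp_pos _)]
      have h5 := mul_lt_mul_of_pos_right hz (Real.exp_pos (-(bb κ 2 * t)))
      rwa [mul_assoc m, ← Real.exp_add, add_neg_cancel, Real.exp_zero, mul_one] at h5
    have hx1 : |x| ≤ 1 / 4 := by
      rw [hx, abs_div, abs_of_pos hre, div_le_iff₀ hre]
      have := (bound _ _ h3).le.trans hm1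
      linarith
    have hks : 0 < k * s := by positivity
    have hy1 : |y| ≤ 1 / 4 := by
      rw [hy, abs_div, abs_of_pos hks, div_le_iff₀ hks]
      have := (bound _ _ h4).le.trans hm2
      linarith
    have hxy : x ^ 2 + y ^ 2 ≤ (1 / 2) ^ 2 := by
      rw [← sq_abs x, ← sq_abs y]
      nlinarith [abs_nonneg x, abs_nonneg y]
    have h6 := htβ t hle x y hxy
    have e1 : S.C0 * Real.exp ((1 - κ) * t) + s * x * Real.exp (aa κ 2 * t) = r := by
      have h7 : Real.exp (aa κ 2 * t) = Real.exp (bb κ 2 * t) * Real.exp ((1 - κ) * t) := by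
        rw [← Real.exp_add]
        congr 1
        unfold bb
        ring
      have h8 : s * x = (r * Real.exp (-((1 - κ) * t)) - S.C0) * Real.exp (-(bb κ 2 * t)) := by
        rw [hx]
        field_simp
      have h9 : Real.exp (-(bb κ 2 * t)) * Real.exp (bb κ 2 * t) = 1 := by
        rw [← Real.exp_add]; simp
      have h10 : Real.exp (-((1 - κ) * t)) * Real.exp ((1 - κ) * t) = 1 := by
        rw [← Real.exp_add]; simp
      rw [h8, h7]
      linear_combination (r * Real.exp (-((1 - κ) * t)) - S.C0) * Real.exp ((1 - κ) * t) * h9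
        + r * h10
    have e2 : k * s * y * Real.exp (bb κ 2 * t) = w := by
      have h8 : k * s * y = w * Real.exp (-(bb κ 2 * t)) := by
        rw [hy]
        field_simp
      rw [h8, mul_assoc, ← Real.exp_add]
      simp
    rwa [e1, e2] at h6


end Pool.Agent.Helper95.A3
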