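import Pool.Agent.Helper25.PCap.GoalsTools

/-!
# Packet RQA: the resolvent maps bounded measurable functions to `C¹`
-/

set_option autoImplicit false

open MeasureTheory Set Filter Topology ProbabilityTheory
open scoped ContDiff Real

noncomputable section

namespace Pool.Agent.Helper95.RQA

open Pool.Agent.Helper25.PCap

/-- The standard Gaussian density. -/
def ph (y : ℝ) : ℝ := (Real.sqrt (2 * π))⁻¹ * Real.exp (-(y ^ 2 / 2))

/-- The standard Gaussian measure of the plane. -/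
abbrev mm : Measure (ℝ × ℝ) := (gaussianReal 0 1).prod (gaussianReal 0 1)

theorem ph_eq (y : ℝ) : gaussianPDFReal 0 1 y = ph y := by
  unfold gaussianPDFReal ph
  simp [neg_div]

theorem ph_cont : Continuous ph := by
  unfold ph
  fun_prop

theorem integral_mm (F : ℝ × ℝ → ℝ) : ∫ y, F y ∂mm = ∫ y : ℝ × ℝ, ph y.1 * ph y.2 * F y := by
  have h : mm = (volume : Measure (ℝ × ℝ)).withDensity
      (fun z => gaussianPDF 0 1 z.1 * gaussianPDF 0 1 z.2) := by
    unfold mm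
    rw [gaussianReal_of_var_ne_zero _ one_ne_zero,
      prod_withDensity (measurable_gaussianPDF 0 1) (measurable_gaussianPDF 0 1)]
    rfl
  have hm : Measurable (fun z : ℝ × ℝ => gaussianPDF 0 1 z.1 * gaussianPDF 0 1 z.2) :=
    ((measurable_gaussianPDF 0 1).comp measurable_fst).mul
      ((measurable_gaussianPDF 0 1).comp measurable_snd)
  rw [h, integral_withDensity_eq_integral_toReal_smul hm]
  · refine integral_congr_ae (Eventually.of_forall fun z => ?_)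
    simp only [ENNReal.toReal_mul, toReal_gaussianPDF, ph_eq, smul_eq_mul]
  · refine Eventually.of_forall fun z => ?_
    exact ENNReal.mul_lt_top gaussianPDF_lt_top gaussianPDF_lt_top

theorem integral_mm_shift (F : ℝ × ℝ → ℝ) (s : ℝ × ℝ) :
    ∫ y, F (y + s) ∂mm = ∫ y : ℝ × ℝ, ph (y.1 - s.1) * ph (y.2 - s.2) * F y := by
  rw [integral_mm]
  rw [← integral_sub_right_eq_self (fun y : ℝ × ℝ => ph y.1 * ph y.2 * F (y + s)) s]
  simp only [sub_add_cancel, Prod.fst_sub, Prod.snd_sub]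

/-- The dominating function. -/
def m1 (y : ℝ) : ℝ := (|y| + 1) * (2 * Real.exp (-(1 / 4) * y ^ 2))

theorem m1_int : Integrable m1 := by
  have h1 : Integrable fun y : ℝ => Real.exp (-(1 / 4) * y ^ 2) :=
    integrable_exp_neg_mul_sq (by norm_num)
  have h2 : Integrable fun y : ℝ => y * Real.exp (-(1 / 4) * y ^ 2) :=
    integrable_mul_exp_neg_mul_sq (by norm_num)
  have h3 : Integrable fun y : ℝ => |y * Real.exp (-(1 / 4) * y ^ 2)| := h2.abs
  have h4 := (h3.const_mul 2).add (h1.const_mul 2)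
  refine h4.congr (Eventually.of_forall fun y => ?_)
  simp only [Pi.add_apply, m1, abs_mul, abs_of_pos (Real.exp_pos _)]
  ring

theorem m1_nonneg (y : ℝ) : 0 ≤ m1 y := by unfold m1; positivity

theorem ph_nonneg (y : ℝ) : 0 ≤ ph y := by unfold ph; positivity

theorem ph_le (y s : ℝ) (hs : |s| ≤ 1) : ph (y - s) ≤ 2 * Real.exp (-(1 / 4) * y ^ 2) := by
  unfold ph
  have h1 : (Real.sqrt (2 * π))⁻¹ ≤ 1 := by
    apply inv_le_one_of_one_le₀
    rw [Real.one_le_sqrt]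
    nlinarith [Real.pi_gt_three]
  have hs2 : s ^ 2 ≤ 1 := by
    rw [← sq_abs]
    nlinarith [abs_nonneg s]
  have h2 : Real.exp (-((y - s) ^ 2 / 2)) ≤ Real.exp (1 / 2 + -(1 / 4) * y ^ 2) := by
    apply Real.exp_le_exp.2
    nlinarith [sq_nonneg (y - 2 * s)]
  have h3 : Real.exp (1 / 2 : ℝ) ≤ 2 := by
    have h4 : Real.exp (1 / 2 : ℝ) ^ 2 = Real.exp 1 := by
      rw [← Real.exp_nat_mul]; norm_num
    have h5 := Real.exp_one_lt_d9
    nlinarith [Real.exp_pos (1 / 2 : ℝ)]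
  calc (Real.sqrt (2 * π))⁻¹ * Real.exp (-((y - s) ^ 2 / 2))
      ≤ 1 * Real.exp (-((y - s) ^ 2 / 2)) := by
        apply mul_le_mul_of_nonneg_right h1 (Real.exp_pos _).le
    _ ≤ Real.exp (1 / 2 + -(1 / 4) * y ^ 2) := by rw [one_mul]; exact h2
    _ = Real.exp (1 / 2) * Real.exp (-(1 / 4) * y ^ 2) := Real.exp_add _ _
    _ ≤ 2 * Real.exp (-(1 / 4) * y ^ 2) := mul_le_mul_of_nonneg_right h3 (Real.exp_pos _).le

theorem ph_le_m1 (y s : ℝ) (hs : |s| ≤ 1) : ph (y - s) ≤ m1 y := by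
  refine (ph_le y s hs).trans ?_
  unfold m1
  have := Real.exp_pos (-(1 / 4) * y ^ 2)
  nlinarith [abs_nonneg y]

theorem mul_ph_le_m1 (y s : ℝ) (hs : |s| ≤ 1) : |y - s| * ph (y - s) ≤ m1 y := by
  have h1 : |y - s| ≤ |y| + 1 := (abs_sub y s).trans (by linarith)
  unfold m1
  exact mul_le_mul h1 (ph_le y s hs) (ph_nonneg _) (by positivity)

/-- The kernel. -/
def ker (s y : ℝ × ℝ) : ℝ := ph (y.1 - s.1) * ph (y.2 - s.2)

theorem ph_deriv (y : ℝ) : HasDerivAt ph (-(y * ph y)) y := by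
  have h1 : HasDerivAt (fun y : ℝ => -(y ^ 2 / 2)) (-y) y := by
    have := ((hasDerivAt_pow 2 y).div_const 2).neg
    convert! this using 1
    simp
  have h2 := (h1.exp).const_mul (Real.sqrt (2 * π))⁻¹
  unfold ph
  convert! h2 using 1
  ring

/-- The derivative of the kernel. -/
def kerD (s y : ℝ × ℝ) : ℝ × ℝ →L[ℝ] ℝ :=
  ((y.1 - s.1) * ker s y) • ContinuousLinearMap.fst ℝ ℝ ℝ
    + ((y.2 - s.2) * ker s y) • ContinuousLinearMap.snd ℝ ℝ ℝ

theorem ker_deriv (s y : ℝ × ℝ) : HasFDerivAt (fun s => ker s y) (kerD s y) s := by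
  have h1 : HasFDerivAt (fun s : ℝ × ℝ => y.1 - s.1) (-ContinuousLinearMap.fst ℝ ℝ ℝ) s :=
    hasFDerivAt_fst.const_sub y.1
  have h2 : HasFDerivAt (fun s : ℝ × ℝ => y.2 - s.2) (-ContinuousLinearMap.snd ℝ ℝ ℝ) s :=
    hasFDerivAt_snd.const_sub y.2
  have h3 := (ph_deriv (y.1 - s.1)).comp_hasFDerivAt s h1
  have h4 := (ph_deriv (y.2 - s.2)).comp_hasFDerivAt s h2
  have h5 := h3.mul h4
  unfold ker
  convert! h5 using 1
  unfold kerD ker
  ext <;> simp <;> ring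

theorem norm_fst_le : ‖ContinuousLinearMap.fst ℝ ℝ ℝ‖ ≤ 1 := ContinuousLinearMap.norm_fst_le ℝ ℝ ℝ
theorem norm_snd_le : ‖ContinuousLinearMap.snd ℝ ℝ ℝ‖ ≤ 1 := ContinuousLinearMap.norm_snd_le ℝ ℝ ℝ

theorem norm_comb_le (a b : ℝ) : ‖a • ContinuousLinearMap.fst ℝ ℝ ℝ
    + b • ContinuousLinearMap.snd ℝ ℝ ℝ‖ ≤ |a| + |b| := by
  refine (norm_add_le _ _).trans ?_
  rw [norm_smul, norm_smul, Real.norm_eq_abs, Real.norm_eq_abs]
  have := mul_le_mul_of_nonneg_left norm_fst_le (abs_nonneg a)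
  have := mul_le_mul_of_nonneg_left norm_snd_le (abs_nonneg b)
  linarith


theorem ker_meas (s : ℝ × ℝ) : Continuous (ker s) := by
  unfold ker
  have := ph_cont
  fun_prop

/-- The two-dimensional dominating function. -/
def m2 (y : ℝ × ℝ) : ℝ := m1 y.1 * m1 y.2

theorem m2_int : Integrable m2 := m1_int.mul_prod m1_int

theorem m2_nonneg (y : ℝ × ℝ) : 0 ≤ m2 y := mul_nonneg (m1_nonneg _) (m1_nonneg _)

theorem ker_nonneg (s y : ℝ × ℝ) : 0 ≤ ker s y := mul_nonneg (ph_nonneg _) (ph_nonneg _)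

theorem abs_le_of_mem {s : ℝ × ℝ} (hs : s ∈ Metric.ball (0 : ℝ × ℝ) 1) : |s.1| ≤ 1 ∧ |s.2| ≤ 1 := by
  rw [mem_ball_zero_iff] at hs
  have h1 : ‖s.1‖ ≤ ‖s‖ := le_max_left _ _
  have h2 : ‖s.2‖ ≤ ‖s‖ := le_max_right _ _
  rw [Real.norm_eq_abs] at h1 h2
  constructor <;> linarith

theorem ker_le {s : ℝ × ℝ} (hs : s ∈ Metric.ball (0 : ℝ × ℝ) 1) (y : ℝ × ℝ) : ker s y ≤ m2 y := by
  obtain ⟨h1, h2⟩ := abs_le_of_mem hs
  exact mul_le_mul (ph_le_m1 _ _ h1) (ph_le_m1 _ _ h2) (ph_nonneg _) (m1_nonneg _)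

theorem ker1_le {s : ℝ × ℝ} (hs : s ∈ Metric.ball (0 : ℝ × ℝ) 1) (y : ℝ × ℝ) :
    |(y.1 - s.1) * ker s y| ≤ m2 y := by
  obtain ⟨h1, h2⟩ := abs_le_of_mem hs
  rw [abs_mul, abs_of_nonneg (ker_nonneg s y)]
  unfold ker m2
  rw [← mul_assoc]
  exact mul_le_mul (mul_ph_le_m1 _ _ h1) (ph_le_m1 _ _ h2) (ph_nonneg _) (m1_nonneg _)

theorem ker2_le {s : ℝ × ℝ} (hs : s ∈ Metric.ball (0 : ℝ × ℝ) 1) (y : ℝ × ℝ) :
    |(y.2 - s.2) * ker s y| ≤ m2 y := by
  obtain ⟨h1, h2⟩ := abs_le_of_mem hs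
  rw [abs_mul, abs_of_nonneg (ker_nonneg s y)]
  unfold ker m2
  have : |y.2 - s.2| * (ph (y.1 - s.1) * ph (y.2 - s.2))
      = ph (y.1 - s.1) * (|y.2 - s.2| * ph (y.2 - s.2)) := by ring
  rw [this]
  exact mul_le_mul (ph_le_m1 _ _ h1) (mul_ph_le_m1 _ _ h2)
    (mul_nonneg (abs_nonneg _) (ph_nonneg _)) (m1_nonneg _)

section
variable {G : ℝ × ℝ → ℝ} {A : ℝ}

theorem ker_int (hG : Measurable G) (hA : ∀ y, |G y| ≤ A) {s : ℝ × ℝ}
    (hs : s ∈ Metric.ball (0 : ℝ × ℝ) 1) : Integrable fun y => ker s y * G y := by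
  refine (m2_int.const_mul A).mono' ?_ (Eventually.of_forall fun y => ?_)
  · exact ((ker_meas s).measurable.mul hG).aestronglyMeasurable
  · rw [Real.norm_eq_abs, abs_mul, abs_of_nonneg (ker_nonneg s y), mul_comm]
    exact mul_le_mul (hA y) (ker_le hs y) (ker_nonneg s y) ((abs_nonneg _).trans (hA y))

theorem ker1_int (hG : Measurable G) (hA : ∀ y, |G y| ≤ A) {s : ℝ × ℝ}
    (hs : s ∈ Metric.ball (0 : ℝ × ℝ) 1) : Integrable fun y => (y.1 - s.1) * ker s y * G y := by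
  refine (m2_int.const_mul A).mono' ?_ (Eventually.of_forall fun y => ?_)
  · exact (((measurable_fst.sub_const s.1).mul (ker_meas s).measurable).mul hG).aestronglyMeasurable
  · rw [Real.norm_eq_abs, abs_mul, mul_comm]
    exact mul_le_mul (hA y) (ker1_le hs y) (abs_nonneg _) ((abs_nonneg _).trans (hA y))

theorem ker2_int (hG : Measurable G) (hA : ∀ y, |G y| ≤ A) {s : ℝ × ℝ}
    (hs : s ∈ Metric.ball (0 : ℝ × ℝ) 1) : Integrable fun y => (y.2 - s.2) * ker s y * G y := by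
  refine (m2_int.const_mul A).mono' ?_ (Eventually.of_forall fun y => ?_)
  · exact (((measurable_snd.sub_const s.2).mul (ker_meas s).measurable).mul hG).aestronglyMeasurable
  · rw [Real.norm_eq_abs, abs_mul, mul_comm]
    exact mul_le_mul (hA y) (ker2_le hs y) (abs_nonneg _) ((abs_nonneg _).trans (hA y))

theorem J_deriv (hG : Measurable G) (hA : ∀ y, |G y| ≤ A) :
    HasFDerivAt (fun s => ∫ y, ker s y * G y)
      ((∫ y : ℝ × ℝ, y.1 * ker 0 y * G y) • ContinuousLinearMap.fst ℝ ℝ ℝ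
        + (∫ y : ℝ × ℝ, y.2 * ker 0 y * G y) • ContinuousLinearMap.snd ℝ ℝ ℝ) (0 : ℝ × ℝ) := by
  have h0 : (0 : ℝ × ℝ) ∈ Metric.ball (0 : ℝ × ℝ) 1 := Metric.mem_ball_self one_pos
  have hF' : ∀ s y : ℝ × ℝ, G y • kerD s y
      = ((y.1 - s.1) * ker s y * G y) • ContinuousLinearMap.fst ℝ ℝ ℝ
        + ((y.2 - s.2) * ker s y * G y) • ContinuousLinearMap.snd ℝ ℝ ℝ := by
    intro s y
    unfold kerD
    rw [smul_add, smul_smul, smul_smul, mul_comm (G y), mul_comm (G y)]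
  have hi1 := (ker1_int hG hA h0).smul_const (ContinuousLinearMap.fst ℝ ℝ ℝ)
  have hi2 := (ker2_int hG hA h0).smul_const (ContinuousLinearMap.snd ℝ ℝ ℝ)
  have h := hasFDerivAt_integral_of_dominated_of_fderiv_le (𝕜 := ℝ) (μ := volume)
    (F := fun s y => ker s y * G y) (F' := fun s y => G y • kerD s y) (x₀ := (0 : ℝ × ℝ))
    (bound := fun y => 2 * A * m2 y) (Metric.ball_mem_nhds 0 one_pos) ?_ ?_ ?_ ?_ ?_ ?_
  · convert! h using 1
    simp only [hF']
    rw [integral_add hi1 hi2, integral_smul_const, integral_smul_const]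
    simp only [Prod.fst_zero, Prod.snd_zero, sub_zero]
  · refine Eventually.of_forall fun s => ?_
    exact ((ker_meas s).measurable.mul hG).aestronglyMeasurable
  · exact ker_int hG hA h0
  · simp only [hF']
    exact (hi1.add hi2).aestronglyMeasurable
  · refine Eventually.of_forall fun y s hs => ?_
    simp only [hF']
    refine (norm_comb_le _ _).trans ?_
    rw [abs_mul (_ * ker s y) (G y), abs_mul (_ * ker s y) (G y)]
    have hA0 : 0 ≤ A := (abs_nonneg _).trans (hA y)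
    have h1 := mul_le_mul (ker1_le hs y) (hA y) (abs_nonneg _) (m2_nonneg y)
    have h2 := mul_le_mul (ker2_le hs y) (hA y) (abs_nonneg _) (m2_nonneg y)
    calc _ ≤ m2 y * A + m2 y * A := add_le_add h1 h2
      _ = 2 * A * m2 y := by ring
  · exact m2_int.const_mul _
  · refine Eventually.of_forall fun y s _ => ?_
    exact (ker_deriv s y).mul_const (G y)

theorem J1_cont (hG : Measurable G) (hA : ∀ y, |G y| ≤ A) :
    ContinuousAt (fun s : ℝ × ℝ => ∫ y : ℝ × ℝ, (y.1 - s.1) * ker s y * G y) 0 := by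
  refine continuousAt_of_dominated (bound := fun y => A * m2 y) ?_ ?_ (m2_int.const_mul _) ?_
  · refine Eventually.of_forall fun s => ?_
    exact (((measurable_fst.sub_const s.1).mul (ker_meas s).measurable).mul hG).aestronglyMeasurable
  · filter_upwards [Metric.ball_mem_nhds (0 : ℝ × ℝ) one_pos] with s hs
    refine Eventually.of_forall fun y => ?_
    rw [Real.norm_eq_abs, abs_mul, mul_comm]
    exact mul_le_mul (hA y) (ker1_le hs y) (abs_nonneg _) ((abs_nonneg _).trans (hA y))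
  · refine Eventually.of_forall fun y => ?_
    have := ph_cont
    unfold ker
    fun_prop

theorem J2_cont (hG : Measurable G) (hA : ∀ y, |G y| ≤ A) :
    ContinuousAt (fun s : ℝ × ℝ => ∫ y : ℝ × ℝ, (y.2 - s.2) * ker s y * G y) 0 := by
  refine continuousAt_of_dominated (bound := fun y => A * m2 y) ?_ ?_ (m2_int.const_mul _) ?_
  · refine Eventually.of_forall fun s => ?_
    exact (((measurable_snd.sub_const s.2).mul (ker_meas s).measurable).mul hG).aestronglyMeasurable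
  · filter_upwards [Metric.ball_mem_nhds (0 : ℝ × ℝ) one_pos] with s hs
    refine Eventually.of_forall fun y => ?_
    rw [Real.norm_eq_abs, abs_mul, mul_comm]
    exact mul_le_mul (hA y) (ker2_le hs y) (abs_nonneg _) ((abs_nonneg _).trans (hA y))
  · refine Eventually.of_forall fun y => ?_
    have := ph_cont
    unfold ker
    fun_prop

end

section
variable {κ t : ℝ} {g : ℝ × ℝ → ℝ} {A : ℝ}

/-- The function `g` in the coordinates centred at `x`. -/
def GG (κ t : ℝ) (g : ℝ × ℝ → ℝ) (x y : ℝ × ℝ) : ℝ :=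
  g (x.1 - (1 - κ) * t + Real.sqrt (2 * t) * y.1, x.2 + Real.sqrt (2 * κ * t) * y.2)

theorem GG_meas (hg : Measurable g) (x : ℝ × ℝ) : Measurable (GG κ t g x) := by
  unfold GG
  fun_prop

/-- The scaling. -/
def sc (κ t : ℝ) (h : ℝ × ℝ) : ℝ × ℝ := (h.1 / Real.sqrt (2 * t), h.2 / Real.sqrt (2 * κ * t))

theorem GG_add (hκ : 0 < κ) (ht : 0 < t) (x h y : ℝ × ℝ) :
    GG κ t g (x + h) y = GG κ t g x (y + sc κ t h) := by
  have h1 : Real.sqrt (2 * t) ≠ 0 := (Real.sqrt_pos.2 (by positivity)).ne'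
  have h2 : Real.sqrt (2 * κ * t) ≠ 0 := (Real.sqrt_pos.2 (by positivity)).ne'
  unfold GG sc
  simp only [Prod.fst_add, Prod.snd_add, mul_add, mul_div_cancel₀ _ h1, mul_div_cancel₀ _ h2]
  congr 2 <;> ring

theorem Pt_add (hκ : 0 < κ) (ht : 0 < t) (x h : ℝ × ℝ) :
    Pt κ t g (x + h) = ∫ y, ker (sc κ t h) y * GG κ t g x y := by
  have h1 : Pt κ t g (x + h) = ∫ y, GG κ t g x (y + sc κ t h) ∂mm := by
    simp only [← GG_add hκ ht]
    rfl
  rw [h1, integral_mm_shift]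
  rfl

theorem Pt1_add (hκ : 0 < κ) (ht : 0 < t) (x h : ℝ × ℝ) :
    Pt1 κ t g (x + h) = (1 / Real.sqrt (2 * t)) *
      ∫ y, (y.1 - (sc κ t h).1) * ker (sc κ t h) y * GG κ t g x y := by
  have h1 : Pt1 κ t g (x + h) = (1 / Real.sqrt (2 * t)) *
      ∫ y, (fun z : ℝ × ℝ => (z.1 - (sc κ t h).1) * GG κ t g x z) (y + sc κ t h) ∂mm := by
    simp only [← GG_add hκ ht, Prod.fst_add, add_sub_cancel_right]
    rfl
  rw [h1, integral_mm_shift (fun z : ℝ × ℝ => (z.1 - (sc κ t h).1) * GG κ t g x z)]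
  congr 1
  refine integral_congr_ae (Eventually.of_forall fun y => ?_)
  simp only [ker]
  ring

theorem Pt2_add (hκ : 0 < κ) (ht : 0 < t) (x h : ℝ × ℝ) :
    Pt2 κ t g (x + h) = (1 / Real.sqrt (2 * κ * t)) *
      ∫ y, (y.2 - (sc κ t h).2) * ker (sc κ t h) y * GG κ t g x y := by
  have h1 : Pt2 κ t g (x + h) = (1 / Real.sqrt (2 * κ * t)) *
      ∫ y, (fun z : ℝ × ℝ => (z.2 - (sc κ t h).2) * GG κ t g x z) (y + sc κ t h) ∂mm := by
    simp only [← GG_add hκ ht, Prod.snd_add, add_sub_cancel_right]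
    rfl
  rw [h1, integral_mm_shift (fun z : ℝ × ℝ => (z.2 - (sc κ t h).2) * GG κ t g x z)]
  congr 1
  refine integral_congr_ae (Eventually.of_forall fun y => ?_)
  simp only [ker]
  ring

theorem sc_zero : sc κ t 0 = 0 := by
  unfold sc
  simp

theorem sc_cont : Continuous (sc κ t) := by
  unfold sc
  fun_prop

theorem sc_deriv : HasFDerivAt (sc κ t)
    (((1 / Real.sqrt (2 * t)) • ContinuousLinearMap.fst ℝ ℝ ℝ).prod
      ((1 / Real.sqrt (2 * κ * t)) • ContinuousLinearMap.snd ℝ ℝ ℝ)) 0 := by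
  unfold sc
  refine HasFDerivAt.prodMk ?_ ?_
  · have := (hasFDerivAt_fst (𝕜 := ℝ) (p := (0 : ℝ × ℝ))).const_mul (1 / Real.sqrt (2 * t))
    convert! this using 1
    funext h
    ring
  · have := (hasFDerivAt_snd (𝕜 := ℝ) (p := (0 : ℝ × ℝ))).const_mul (1 / Real.sqrt (2 * κ * t))
    convert! this using 1
    funext h
    ring

theorem Pt_deriv (hκ : 0 < κ) (ht : 0 < t) (hg : Measurable g) (hA : ∀ y, |g y| ≤ A) (x : ℝ × ℝ) :
    HasFDerivAt (Pt κ t g) (Pt1 κ t g x • ContinuousLinearMap.fst ℝ ℝ ℝ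
      + Pt2 κ t g x • ContinuousLinearMap.snd ℝ ℝ ℝ) x := by
  have h1 : HasFDerivAt (fun h => Pt κ t g (x + h)) (Pt1 κ t g x • ContinuousLinearMap.fst ℝ ℝ ℝ
      + Pt2 κ t g x • ContinuousLinearMap.snd ℝ ℝ ℝ) 0 := by
    have h2 := J_deriv (G := GG κ t g x) (GG_meas hg x) (fun y => hA _)
    have h3 := sc_deriv (κ := κ) (t := t)
    rw [← sc_zero (κ := κ) (t := t)] at h2
    have h4 := h2.comp (0 : ℝ × ℝ) h3
    have e1 := Pt1_add (g := g) hκ ht x 0
    have e2 := Pt2_add (g := g) hκ ht x 0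
    rw [add_zero, sc_zero] at e1 e2
    simp only [Prod.fst_zero, Prod.snd_zero, sub_zero] at e1 e2
    rw [sc_zero] at h4
    convert! h4 using 1
    · funext h
      exact Pt_add hκ ht x h
    · rw [e1, e2]
      ext <;> simp <;> ring
  have h5 := (hasFDerivAt_comp_add_left (𝕜 := ℝ) (f := Pt κ t g) (x := (0 : ℝ × ℝ)) x).1 h1
  rwa [add_zero] at h5

theorem Pt1_cont (hκ : 0 < κ) (ht : 0 < t) (hg : Measurable g) (hA : ∀ y, |g y| ≤ A) :
    Continuous (Pt1 κ t g) := by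
  rw [continuous_iff_continuousAt]
  intro x
  have h1 : ContinuousAt (fun h => Pt1 κ t g (x + h)) 0 := by
    have h2 := J1_cont (G := GG κ t g x) (GG_meas hg x) (fun y => hA _)
    have h3 := (sc_cont (κ := κ) (t := t)).continuousAt (x := 0)
    rw [← sc_zero (κ := κ) (t := t)] at h2
    have h4 := (h2.comp h3).const_mul (1 / Real.sqrt (2 * t))
    convert! h4 using 1
    funext h
    exact Pt1_add hκ ht x h
  have h6 : Tendsto (fun z => z - x) (𝓝 x) (𝓝 0) := by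
    have := (by fun_prop : Continuous fun z : ℝ × ℝ => z - x).tendsto x
    rwa [sub_self] at this
  have h7 := h1.tendsto.comp h6
  rw [add_zero] at h7
  refine h7.congr fun z => ?_
  simp

theorem Pt2_cont (hκ : 0 < κ) (ht : 0 < t) (hg : Measurable g) (hA : ∀ y, |g y| ≤ A) :
    Continuous (Pt2 κ t g) := by
  rw [continuous_iff_continuousAt]
  intro x
  have h1 : ContinuousAt (fun h => Pt2 κ t g (x + h)) 0 := by
    have h2 := J2_cont (G := GG κ t g x) (GG_meas hg x) (fun y => hA _)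
    have h3 := (sc_cont (κ := κ) (t := t)).continuousAt (x := 0)
    rw [← sc_zero (κ := κ) (t := t)] at h2
    have h4 := (h2.comp h3).const_mul (1 / Real.sqrt (2 * κ * t))
    convert! h4 using 1
    funext h
    exact Pt2_add hκ ht x h
  have h6 : Tendsto (fun z => z - x) (𝓝 x) (𝓝 0) := by
    have := (by fun_prop : Continuous fun z : ℝ × ℝ => z - x).tendsto x
    rwa [sub_self] at this
  have h7 := h1.tendsto.comp h6
  rw [add_zero] at h7
  refine h7.congr fun z => ?_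
  simp

end

theorem abs_fst_int : Integrable (fun y : ℝ × ℝ => |y.1|) mm := by
  have h1 : Integrable (fun y : ℝ => |y|) (gaussianReal 0 1) :=
    ((memLp_id_gaussianReal 1).integrable le_rfl).abs
  exact h1.comp_fst _

theorem abs_snd_int : Integrable (fun y : ℝ × ℝ => |y.2|) mm := by
  have h1 : Integrable (fun y : ℝ => |y|) (gaussianReal 0 1) :=
    ((memLp_id_gaussianReal 1).integrable le_rfl).abs
  exact h1.comp_snd _

/-- The first absolute moment. -/
def M1 : ℝ := ∫ y : ℝ × ℝ, |y.1| ∂mm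

/-- The first absolute moment. -/
def M2 : ℝ := ∫ y : ℝ × ℝ, |y.2| ∂mm

theorem M1_nonneg : 0 ≤ M1 := integral_nonneg fun _ => abs_nonneg _

theorem M2_nonneg : 0 ≤ M2 := integral_nonneg fun _ => abs_nonneg _

section
variable {κ t : ℝ} {g : ℝ × ℝ → ℝ} {A : ℝ}

theorem Pt_bd (hA : ∀ y, |g y| ≤ A) (x : ℝ × ℝ) : |Pt κ t g x| ≤ A := by
  unfold Pt
  rw [← Real.norm_eq_abs]
  have h := norm_integral_le_of_norm_le_const (μ := mm) (C := A)
    (f := fun y : ℝ × ℝ => g (x.1 - (1 - κ) * t + Real.sqrt (2 * t) * y.1,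
      x.2 + Real.sqrt (2 * κ * t) * y.2)) (Eventually.of_forall fun y => hA _)
  simpa using h

theorem Pt1_bd (hA : ∀ y, |g y| ≤ A) (x : ℝ × ℝ) :
    |Pt1 κ t g x| ≤ (1 / Real.sqrt (2 * t)) * (M1 * A) := by
  unfold Pt1
  rw [abs_mul, abs_of_nonneg (by positivity : 0 ≤ 1 / Real.sqrt (2 * t))]
  refine mul_le_mul_of_nonneg_left ?_ (by positivity)
  rw [← Real.norm_eq_abs]
  have h := norm_integral_le_of_norm_le (μ := mm) (g := fun y : ℝ × ℝ => |y.1| * A)
    (f := fun y : ℝ × ℝ => y.1 * g (x.1 - (1 - κ) * t + Real.sqrt (2 * t) * y.1,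
      x.2 + Real.sqrt (2 * κ * t) * y.2)) (abs_fst_int.mul_const A)
    (Eventually.of_forall fun y => by
      rw [Real.norm_eq_abs, abs_mul]
      exact mul_le_mul_of_nonneg_left (hA _) (abs_nonneg _))
  rwa [integral_mul_const] at h

theorem Pt2_bd (hA : ∀ y, |g y| ≤ A) (x : ℝ × ℝ) :
    |Pt2 κ t g x| ≤ (1 / Real.sqrt (2 * κ * t)) * (M2 * A) := by
  unfold Pt2
  rw [abs_mul, abs_of_nonneg (by positivity : 0 ≤ 1 / Real.sqrt (2 * κ * t))]
  refine mul_le_mul_of_nonneg_left ?_ (by positivity)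
  rw [← Real.norm_eq_abs]
  have h := norm_integral_le_of_norm_le (μ := mm) (g := fun y : ℝ × ℝ => |y.2| * A)
    (f := fun y : ℝ × ℝ => y.2 * g (x.1 - (1 - κ) * t + Real.sqrt (2 * t) * y.1,
      x.2 + Real.sqrt (2 * κ * t) * y.2)) (abs_snd_int.mul_const A)
    (Eventually.of_forall fun y => by
      rw [Real.norm_eq_abs, abs_mul]
      exact mul_le_mul_of_nonneg_left (hA _) (abs_nonneg _))
  rwa [integral_mul_const] at h

theorem Pt_smeas (hg : Measurable g) (x : ℝ × ℝ) : StronglyMeasurable fun t => Pt κ t g x := by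
  unfold Pt
  have h : StronglyMeasurable (fun p : ℝ × (ℝ × ℝ) =>
      g (x.1 - (1 - κ) * p.1 + Real.sqrt (2 * p.1) * p.2.1,
        x.2 + Real.sqrt (2 * κ * p.1) * p.2.2)) := by
    refine Measurable.stronglyMeasurable ?_
    fun_prop
  exact h.integral_prod_right'

theorem Pt1_smeas (hg : Measurable g) (x : ℝ × ℝ) : StronglyMeasurable fun t => Pt1 κ t g x := by
  unfold Pt1
  have h : StronglyMeasurable (fun p : ℝ × (ℝ × ℝ) =>
      p.2.1 * g (x.1 - (1 - κ) * p.1 + Real.sqrt (2 * p.1) * p.2.1,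
        x.2 + Real.sqrt (2 * κ * p.1) * p.2.2)) := by
    refine Measurable.stronglyMeasurable ?_
    fun_prop
  refine StronglyMeasurable.mul ?_ h.integral_prod_right'
  refine Measurable.stronglyMeasurable ?_
  fun_prop

theorem Pt2_smeas (hg : Measurable g) (x : ℝ × ℝ) : StronglyMeasurable fun t => Pt2 κ t g x := by
  unfold Pt2
  have h : StronglyMeasurable (fun p : ℝ × (ℝ × ℝ) =>
      p.2.2 * g (x.1 - (1 - κ) * p.1 + Real.sqrt (2 * p.1) * p.2.1,
        x.2 + Real.sqrt (2 * κ * p.1) * p.2.2)) := by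
    refine Measurable.stronglyMeasurable ?_
    fun_prop
  refine StronglyMeasurable.mul ?_ h.integral_prod_right'
  refine Measurable.stronglyMeasurable ?_
  fun_prop

end

/-- The dominating function in time. -/
def bt (q t : ℝ) : ℝ := Real.exp (-(q * t)) * (1 / Real.sqrt t)

theorem bt_int {q : ℝ} (hq : 0 < q) : IntegrableOn (bt q) (Ioi 0) := by
  have h := integrableOn_rpow_mul_exp_neg_mul_rpow (p := 1) (s := -1 / 2) (b := q)
    (by norm_num) one_pos hq
  refine h.congr_fun (fun t ht => ?_) measurableSet_Ioi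
  have ht' : (0 : ℝ) < t := ht
  simp only [Real.rpow_one, bt]
  rw [show (-1 / 2 : ℝ) = -(1 / 2) by norm_num, Real.rpow_neg ht'.le, ← Real.sqrt_eq_rpow]
  ring_nf

theorem bt_nonneg (q t : ℝ) : 0 ≤ bt q t := by unfold bt; positivity

section
variable {κ q : ℝ} {g : ℝ × ℝ → ℝ} {A : ℝ}

/-- The constant. -/
def CC (κ : ℝ) : ℝ := M1 / Real.sqrt 2 + M2 / Real.sqrt (2 * κ)

theorem CC_nonneg (κ : ℝ) : 0 ≤ CC κ := by
  have := M1_nonneg
  have := M2_nonneg
  unfold CC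
  positivity

theorem bd1 (hA : ∀ y, |g y| ≤ A) (t : ℝ) (x : ℝ × ℝ) :
    |Real.exp (-(q * t)) * Pt1 κ t g x| ≤ M1 / Real.sqrt 2 * A * bt q t := by
  rw [abs_mul, abs_of_pos (Real.exp_pos _)]
  refine (mul_le_mul_of_nonneg_left (Pt1_bd hA x) (Real.exp_pos _).le).trans (le_of_eq ?_)
  unfold bt
  rw [Real.sqrt_mul (by norm_num : (0 : ℝ) ≤ 2)]
  simp only [one_div, mul_inv]
  ring

theorem bd2 (hκ : 0 < κ) (hA : ∀ y, |g y| ≤ A) (t : ℝ) (x : ℝ × ℝ) :
    |Real.exp (-(q * t)) * Pt2 κ t g x| ≤ M2 / Real.sqrt (2 * κ) * A * bt q t := by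
  rw [abs_mul, abs_of_pos (Real.exp_pos _)]
  refine (mul_le_mul_of_nonneg_left (Pt2_bd hA x) (Real.exp_pos _).le).trans (le_of_eq ?_)
  unfold bt
  rw [Real.sqrt_mul (by positivity : (0 : ℝ) ≤ 2 * κ)]
  simp only [one_div, mul_inv]
  ring

theorem sm1 (hg : Measurable g) (x : ℝ × ℝ) :
    AEStronglyMeasurable (fun t => Real.exp (-(q * t)) * Pt1 κ t g x)
      (volume.restrict (Ioi 0)) := by
  refine (StronglyMeasurable.mul ?_ (Pt1_smeas hg x)).aestronglyMeasurable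
  refine Measurable.stronglyMeasurable ?_
  fun_prop

theorem sm2 (hg : Measurable g) (x : ℝ × ℝ) :
    AEStronglyMeasurable (fun t => Real.exp (-(q * t)) * Pt2 κ t g x)
      (volume.restrict (Ioi 0)) := by
  refine (StronglyMeasurable.mul ?_ (Pt2_smeas hg x)).aestronglyMeasurable
  refine Measurable.stronglyMeasurable ?_
  fun_prop

theorem sm0 (hg : Measurable g) (x : ℝ × ℝ) :
    AEStronglyMeasurable (fun t => Real.exp (-(q * t)) * Pt κ t g x)
      (volume.restrict (Ioi 0)) := by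
  refine (StronglyMeasurable.mul ?_ (Pt_smeas hg x)).aestronglyMeasurable
  refine Measurable.stronglyMeasurable ?_
  fun_prop

theorem int1 (hq : 0 < q) (hg : Measurable g) (hA : ∀ y, |g y| ≤ A) (x : ℝ × ℝ) :
    IntegrableOn (fun t => Real.exp (-(q * t)) * Pt1 κ t g x) (Ioi 0) :=
  ((bt_int hq).const_mul (M1 / Real.sqrt 2 * A)).mono' (sm1 hg x)
    (Eventually.of_forall fun t => bd1 hA t x)

theorem int2 (hκ : 0 < κ) (hq : 0 < q) (hg : Measurable g) (hA : ∀ y, |g y| ≤ A) (x : ℝ × ℝ) :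
    IntegrableOn (fun t => Real.exp (-(q * t)) * Pt2 κ t g x) (Ioi 0) :=
  ((bt_int hq).const_mul (M2 / Real.sqrt (2 * κ) * A)).mono' (sm2 hg x)
    (Eventually.of_forall fun t => bd2 hκ hA t x)

theorem int0 (hq : 0 < q) (hg : Measurable g) (hA : ∀ y, |g y| ≤ A) (x : ℝ × ℝ) :
    IntegrableOn (fun t => Real.exp (-(q * t)) * Pt κ t g x) (Ioi 0) := by
  have h1 : IntegrableOn (fun t : ℝ => Real.exp (-(q * t)) * A) (Ioi 0) := by
    have := (exp_neg_integrableOn_Ioi 0 hq).mul_const A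
    simp only [neg_mul] at this
    exact this
  refine h1.mono' (sm0 hg x) (Eventually.of_forall fun t => ?_)
  rw [Real.norm_eq_abs, abs_mul, abs_of_pos (Real.exp_pos _)]
  exact mul_le_mul_of_nonneg_left (Pt_bd hA x) (Real.exp_pos _).le

/-- The derivative of the resolvent. -/
def LD (κ q : ℝ) (g : ℝ × ℝ → ℝ) (x : ℝ × ℝ) : ℝ × ℝ →L[ℝ] ℝ :=
  (∫ t in Ioi (0 : ℝ), Real.exp (-(q * t)) * Pt1 κ t g x) • ContinuousLinearMap.fst ℝ ℝ ℝ
    + (∫ t in Ioi (0 : ℝ), Real.exp (-(q * t)) * Pt2 κ t g x) • ContinuousLinearMap.snd ℝ ℝ ℝ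

theorem Rq_deriv (hκ : 0 < κ) (hq : 0 < q) (hg : Measurable g) (hA : ∀ y, |g y| ≤ A)
    (x : ℝ × ℝ) : HasFDerivAt (Rq κ q g) (LD κ q g x) x := by
  have hi1 := (int1 (κ := κ) hq hg hA x).smul_const (ContinuousLinearMap.fst ℝ ℝ ℝ)
  have hi2 := (int2 hκ hq hg hA x).smul_const (ContinuousLinearMap.snd ℝ ℝ ℝ)
  have h := hasFDerivAt_integral_of_dominated_of_fderiv_le (𝕜 := ℝ) (μ := volume.restrict (Ioi 0))
    (F := fun x t => Real.exp (-(q * t)) * Pt κ t g x)
    (F' := fun x t => (Real.exp (-(q * t)) * Pt1 κ t g x) • ContinuousLinearMap.fst ℝ ℝ ℝ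
      + (Real.exp (-(q * t)) * Pt2 κ t g x) • ContinuousLinearMap.snd ℝ ℝ ℝ) (x₀ := x)
    (bound := fun t => (M1 / Real.sqrt 2 * A + M2 / Real.sqrt (2 * κ) * A) * bt q t)
    (s := univ) univ_mem ?_ ?_ ?_ ?_ ?_ ?_
  · unfold Rq LD
    convert! h using 1
    rw [integral_add hi1 hi2, integral_smul_const, integral_smul_const]
  · exact Eventually.of_forall fun x => sm0 hg x
  · exact int0 hq hg hA x
  · exact (hi1.add hi2).aestronglyMeasurable
  · refine Eventually.of_forall fun t x _ => ?_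
    refine (norm_comb_le _ _).trans ?_
    rw [add_mul]
    exact add_le_add (bd1 hA t x) (bd2 hκ hA t x)
  · exact (bt_int hq).const_mul _
  · filter_upwards [ae_restrict_mem measurableSet_Ioi] with t ht x _
    have h1 := (Pt_deriv hκ ht hg hA x).const_mul (Real.exp (-(q * t)))
    convert! h1 using 1
    rw [smul_add, smul_smul, smul_smul]

theorem LD_cont (hκ : 0 < κ) (hq : 0 < q) (hg : Measurable g) (hA : ∀ y, |g y| ≤ A) :
    Continuous (LD κ q g) := by
  have h1 : Continuous fun x => ∫ t in Ioi (0 : ℝ), Real.exp (-(q * t)) * Pt1 κ t g x := by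
    refine continuous_of_dominated (bound := fun t => M1 / Real.sqrt 2 * A * bt q t)
      (fun x => sm1 hg x) (fun x => Eventually.of_forall fun t => bd1 hA t x)
      ((bt_int hq).const_mul _) ?_
    filter_upwards [ae_restrict_mem measurableSet_Ioi] with t ht
    exact continuous_const.mul (Pt1_cont hκ ht hg hA)
  have h2 : Continuous fun x => ∫ t in Ioi (0 : ℝ), Real.exp (-(q * t)) * Pt2 κ t g x := by
    refine continuous_of_dominated (bound := fun t => M2 / Real.sqrt (2 * κ) * A * bt q t)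
      (fun x => sm2 hg x) (fun x => Eventually.of_forall fun t => bd2 hκ hA t x)
      ((bt_int hq).const_mul _) ?_
    filter_upwards [ae_restrict_mem measurableSet_Ioi] with t ht
    exact continuous_const.mul (Pt2_cont hκ ht hg hA)
  unfold LD
  exact (h1.smul continuous_const).add (h2.smul continuous_const)

theorem D1_Rq (hκ : 0 < κ) (hq : 0 < q) (hg : Measurable g) (hA : ∀ y, |g y| ≤ A) (x : ℝ × ℝ) :
    D1 (Rq κ q g) x = ∫ t in Ioi (0 : ℝ), Real.exp (-(q * t)) * Pt1 κ t g x := by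
  unfold D1
  rw [(Rq_deriv hκ hq hg hA x).fderiv]
  simp [LD]

theorem D2_Rq (hκ : 0 < κ) (hq : 0 < q) (hg : Measurable g) (hA : ∀ y, |g y| ≤ A) (x : ℝ × ℝ) :
    D2 (Rq κ q g) x = ∫ t in Ioi (0 : ℝ), Real.exp (-(q * t)) * Pt2 κ t g x := by
  unfold D2
  rw [(Rq_deriv hκ hq hg hA x).fderiv]
  simp [LD]

theorem K_bd1 (hq : 0 < q) (hA : ∀ y, |g y| ≤ A) (x : ℝ × ℝ) :
    |∫ t in Ioi (0 : ℝ), Real.exp (-(q * t)) * Pt1 κ t g x|
      ≤ M1 / Real.sqrt 2 * A * ∫ t in Ioi (0 : ℝ), bt q t := by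
  rw [← Real.norm_eq_abs, ← integral_const_mul]
  exact norm_integral_le_of_norm_le ((bt_int hq).const_mul _)
    (Eventually.of_forall fun t => bd1 hA t x)

theorem K_bd2 (hκ : 0 < κ) (hq : 0 < q) (hA : ∀ y, |g y| ≤ A) (x : ℝ × ℝ) :
    |∫ t in Ioi (0 : ℝ), Real.exp (-(q * t)) * Pt2 κ t g x|
      ≤ M2 / Real.sqrt (2 * κ) * A * ∫ t in Ioi (0 : ℝ), bt q t := by
  rw [← Real.norm_eq_abs, ← integral_const_mul]
  exact norm_integral_le_of_norm_le ((bt_int hq).const_mul _)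
    (Eventually.of_forall fun t => bd2 hκ hA t x)

end

theorem pkRQa : GRQa := by
  intro κ q hκ _ hq
  refine ⟨CC κ * ∫ t in Ioi (0 : ℝ), bt q t, fun g A hg hA => ?_⟩
  have hA0 : 0 ≤ A := (abs_nonneg _).trans (hA 0)
  have hI : 0 ≤ ∫ t in Ioi (0 : ℝ), bt q t := integral_nonneg fun t => bt_nonneg q t
  have hM1 : 0 ≤ M1 / Real.sqrt 2 := div_nonneg M1_nonneg (Real.sqrt_nonneg _)
  have hM2 : 0 ≤ M2 / Real.sqrt (2 * κ) := div_nonneg M2_nonneg (Real.sqrt_nonneg _)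
  have hc1 : M1 / Real.sqrt 2 * A * (∫ t in Ioi (0 : ℝ), bt q t)
      ≤ CC κ * (∫ t in Ioi (0 : ℝ), bt q t) * A := by
    unfold CC
    nlinarith [mul_nonneg (mul_nonneg hM2 hA0) hI]
  have hc2 : M2 / Real.sqrt (2 * κ) * A * (∫ t in Ioi (0 : ℝ), bt q t)
      ≤ CC κ * (∫ t in Ioi (0 : ℝ), bt q t) * A := by
    unfold CC
    nlinarith [mul_nonneg (mul_nonneg hM1 hA0) hI]
  refine ⟨?_, fun x => ?_, fun x => ?_, fun x => D1_Rq hκ hq hg hA x, fun x => D2_Rq hκ hq hg hA x,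
    fun x => int1 hq hg hA x, fun x => int2 hκ hq hg hA x⟩
  · exact contDiff_one_iff_hasFDerivAt.2 ⟨LD κ q g, LD_cont hκ hq hg hA,
      fun x => Rq_deriv hκ hq hg hA x⟩
  · rw [D1_Rq hκ hq hg hA x]
    exact (K_bd1 hq hA x).trans hc1
  · rw [D2_Rq hκ hq hg hA x]
    exact (K_bd2 hκ hq hA x).trans hc2


end Pool.Agent.Helper95.RQA
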