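import Pool.Agent.Helper25.PCap.Defs

/-!
# Vertical primitives of smooth functions of two variables
-/

set_option autoImplicit false

open MeasureTheory Set Filter Topology
open scoped ContDiff Real

noncomputable section

namespace Pool.Agent.Helper95.VPrim

open Pool.Agent.Helper25.PCap

/-- The vertical primitive. -/
def VP (a : ℝ) (g : ℝ × ℝ → ℝ) (z : ℝ × ℝ) : ℝ := ∫ t in a..z.1, g (t, z.2)

theorem D1_of {f : ℝ × ℝ → ℝ} {a b : ℝ} {z : ℝ × ℝ}
    (h : HasFDerivAt f (a • ContinuousLinearMap.fst ℝ ℝ ℝ + b • ContinuousLinearMap.snd ℝ ℝ ℝ) z) :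
    D1 f z = a := by
  unfold D1
  rw [h.fderiv]
  simp

theorem D2_of {f : ℝ × ℝ → ℝ} {a b : ℝ} {z : ℝ × ℝ}
    (h : HasFDerivAt f (a • ContinuousLinearMap.fst ℝ ℝ ℝ + b • ContinuousLinearMap.snd ℝ ℝ ℝ) z) :
    D2 f z = b := by
  unfold D2
  rw [h.fderiv]
  simp

theorem D1_congr {f g : ℝ × ℝ → ℝ} {z : ℝ × ℝ} (h : f =ᶠ[𝓝 z] g) : D1 f z = D1 g z := by
  have h1 : fderiv ℝ f z = fderiv ℝ g z := h.fderiv_eq
  simp only [D1, h1]

theorem D2_congr {f g : ℝ × ℝ → ℝ} {z : ℝ × ℝ} (h : f =ᶠ[𝓝 z] g) : D2 f z = D2 g z := by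
  have h1 : fderiv ℝ f z = fderiv ℝ g z := h.fderiv_eq
  simp only [D2, h1]

theorem hasFDerivAt_D {f : ℝ × ℝ → ℝ} {z : ℝ × ℝ} (h : DifferentiableAt ℝ f z) :
    HasFDerivAt f (D1 f z • ContinuousLinearMap.fst ℝ ℝ ℝ
      + D2 f z • ContinuousLinearMap.snd ℝ ℝ ℝ) z := by
  convert! h.hasFDerivAt using 1
  unfold D1 D2
  ext <;> simp

theorem hasDerivAt_D1 {f : ℝ × ℝ → ℝ} {z : ℝ × ℝ} (h : DifferentiableAt ℝ f z) :
    HasDerivAt (fun t => f (t, z.2)) (D1 f z) z.1 := by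
  have h1 : HasDerivAt (fun t : ℝ => ((t, z.2) : ℝ × ℝ)) (1, 0) z.1 :=
    (hasDerivAt_id z.1).prodMk (hasDerivAt_const z.1 z.2)
  exact (h.hasFDerivAt).comp_hasDerivAt z.1 h1

theorem hasDerivAt_D2 {f : ℝ × ℝ → ℝ} {z : ℝ × ℝ} (h : DifferentiableAt ℝ f z) :
    HasDerivAt (fun t => f (z.1, t)) (D2 f z) z.2 := by
  have h1 : HasDerivAt (fun t : ℝ => ((z.1, t) : ℝ × ℝ)) (0, 1) z.2 :=
    (hasDerivAt_const z.2 z.1).prodMk (hasDerivAt_id z.2)
  exact (h.hasFDerivAt).comp_hasDerivAt z.2 h1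

theorem D1_smooth {f : ℝ × ℝ → ℝ} (h : ContDiff ℝ ∞ f) : ContDiff ℝ ∞ (D1 f) :=
  (h.fderiv_right (m := ∞) (by simp)).clm_apply contDiff_const

theorem D2_smooth {f : ℝ × ℝ → ℝ} (h : ContDiff ℝ ∞ f) : ContDiff ℝ ∞ (D2 f) :=
  (h.fderiv_right (m := ∞) (by simp)).clm_apply contDiff_const

theorem D1_smoothOn {f : ℝ × ℝ → ℝ} {O : Set (ℝ × ℝ)} (hO : IsOpen O) (h : ContDiffOn ℝ ∞ f O) :
    ContDiffOn ℝ ∞ (D1 f) O :=
  (h.fderiv_of_isOpen (m := ∞) hO (by simp)).clm_apply contDiffOn_const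

theorem D2_smoothOn {f : ℝ × ℝ → ℝ} {O : Set (ℝ × ℝ)} (hO : IsOpen O) (h : ContDiffOn ℝ ∞ f O) :
    ContDiffOn ℝ ∞ (D2 f) O :=
  (h.fderiv_of_isOpen (m := ∞) hO (by simp)).clm_apply contDiffOn_const

theorem VP_cont (a : ℝ) {g : ℝ × ℝ → ℝ} (hg : Continuous g) : Continuous (VP a g) := by
  have h1 : Continuous (Function.uncurry fun (θ : ℝ) (t : ℝ) => g (t, θ)) := by
    have : (Function.uncurry fun (θ : ℝ) (t : ℝ) => g (t, θ)) = fun p : ℝ × ℝ => g (p.2, p.1) := by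
      funext p
      rfl
    rw [this]
    exact hg.comp (continuous_snd.prodMk continuous_fst)
  have h2 := intervalIntegral.continuous_parametric_primitive_of_continuous (μ := volume)
    (a₀ := a) h1
  exact h2.comp (continuous_snd.prodMk continuous_fst)

theorem VP_hasFDerivAt (a : ℝ) {g : ℝ × ℝ → ℝ} (hg : ContDiff ℝ ∞ g) (z : ℝ × ℝ) :
    HasFDerivAt (VP a g) (g z • ContinuousLinearMap.fst ℝ ℝ ℝ
      + VP a (D2 g) z • ContinuousLinearMap.snd ℝ ℝ ℝ) z := by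
  have hgc : Continuous g := hg.continuous
  have hD2 : Continuous (D2 g) := (D2_smooth hg).continuous
  have hgd : Differentiable ℝ g := hg.differentiable (by simp)
  have key := hasStrictFDerivAt_uncurry_coprod (𝕜 := ℝ) (u := z)
    (f := fun τ θ => ∫ t in a..τ, g (t, θ))
    (f₁ := fun τ θ => (g (τ, θ)) • ContinuousLinearMap.id ℝ ℝ)
    (f₂ := fun τ θ => (VP a (D2 g) (τ, θ)) • ContinuousLinearMap.id ℝ ℝ) ?_ ?_ ?_ ?_
  · have h1 := key.hasFDerivAt
    convert! h1 using 1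
  · refine Eventually.of_forall fun v => ?_
    have h1 : Continuous fun t => g (t, v.2) := by fun_prop
    have h2 := (h1.integral_hasStrictDerivAt a v.1).hasDerivAt.hasFDerivAt
    convert! h2 using 1
    ext
    simp [Function.HasUncurry.uncurry]
  · refine Eventually.of_forall fun v => ?_
    -- a bound for the derivative
    have hK : IsCompact (uIcc a v.1 ×ˢ Metric.closedBall v.2 1) :=
      isCompact_uIcc.prod (isCompact_closedBall _ _)
    obtain ⟨M, hM⟩ := hK.exists_bound_of_continuousOn hD2.continuousOn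
    have h3 := intervalIntegral.hasDerivAt_integral_of_dominated_loc_of_deriv_le (𝕜 := ℝ)
      (μ := volume) (a := a) (b := v.1) (F := fun θ t => g (t, θ)) (F' := fun θ t => D2 g (t, θ))
      (x₀ := v.2) (bound := fun _ => M) (Metric.closedBall_mem_nhds v.2 one_pos) ?_ ?_ ?_ ?_ ?_ ?_
    · have h4 := h3.2.hasFDerivAt
      convert! h4 using 1
      ext
      simp [Function.HasUncurry.uncurry, VP]
    · refine Eventually.of_forall fun θ => ?_
      have : Continuous fun t => g (t, θ) := by fun_prop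
      exact this.aestronglyMeasurable
    · have : Continuous fun t => g (t, v.2) := by fun_prop
      exact this.intervalIntegrable _ _
    · have : Continuous fun t => D2 g (t, v.2) := by fun_prop
      exact this.aestronglyMeasurable
    · refine Eventually.of_forall fun t ht θ hθ => ?_
      exact hM (t, θ) ⟨uIoc_subset_uIcc ht, hθ⟩
    · exact intervalIntegrable_const
    · refine Eventually.of_forall fun t _ θ _ => ?_
      exact hasDerivAt_D2 (hgd (t, θ))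
  · have : Continuous fun z : ℝ × ℝ => g z • ContinuousLinearMap.id ℝ ℝ :=
      hgc.smul continuous_const
    exact this.continuousAt
  · have : Continuous fun z : ℝ × ℝ => VP a (D2 g) z • ContinuousLinearMap.id ℝ ℝ :=
      (VP_cont a hD2).smul continuous_const
    exact this.continuousAt

theorem VP_contDiff (a : ℝ) (n : ℕ) : ∀ g : ℝ × ℝ → ℝ, ContDiff ℝ ∞ g → ContDiff ℝ n (VP a g) := by
  induction n with
  | zero =>
    intro g hg
    exact contDiff_zero.2 (VP_cont a hg.continuous)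
  | succ n ih =>
    intro g hg
    have h1 : ∀ z, HasFDerivAt (VP a g) (g z • ContinuousLinearMap.fst ℝ ℝ ℝ
      + VP a (D2 g) z • ContinuousLinearMap.snd ℝ ℝ ℝ) z := VP_hasFDerivAt a hg
    have h2 : ContDiff ℝ n (fun z => g z • ContinuousLinearMap.fst ℝ ℝ ℝ
      + VP a (D2 g) z • ContinuousLinearMap.snd ℝ ℝ ℝ) := by
      have h3 : ContDiff ℝ n g := hg.of_le (by exact_mod_cast le_top)
      have h4 := ih (D2 g) (D2_smooth hg)
      exact (h3.smul contDiff_const).add (h4.smul contDiff_const)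
    rw [Nat.cast_succ, contDiff_succ_iff_hasFDerivAt]
    exact ⟨_, h2, h1⟩

theorem VP_smooth (a : ℝ) {g : ℝ × ℝ → ℝ} (hg : ContDiff ℝ ∞ g) : ContDiff ℝ ∞ (VP a g) :=
  contDiff_infty.2 fun n => VP_contDiff a n g hg

/-- A cut-off: if the closed rectangle is in the open set `O`, a smooth function on `O` can be
replaced by a globally smooth one, equal to it on a smaller open rectangle. -/
theorem exists_cut {O : Set (ℝ × ℝ)} (hO : IsOpen O) {c₁ c₂ r₁ r₂ δ : ℝ} (hr₁ : 0 < r₁)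
    (hr₂ : 0 < r₂) (hδ : 0 < δ)
    (hsub : ∀ z : ℝ × ℝ, |z.1 - c₁| ≤ r₁ + δ → |z.2 - c₂| ≤ r₂ + δ → z ∈ O) {g : ℝ × ℝ → ℝ}
    (hg : ContDiffOn ℝ ∞ g O) :
    ∃ gt : ℝ × ℝ → ℝ, ContDiff ℝ ∞ gt ∧ ∀ z : ℝ × ℝ, |z.1 - c₁| < r₁ → |z.2 - c₂| < r₂ →
      gt z = g z := by
  let χ₁ : ContDiffBump c₁ := ⟨r₁, r₁ + δ, hr₁, by linarith⟩
  let χ₂ : ContDiffBump c₂ := ⟨r₂, r₂ + δ, hr₂, by linarith⟩
  have hχ₁ : ContDiff ℝ ∞ (χ₁ : ℝ → ℝ) := χ₁.contDiff
  have hχ₂ : ContDiff ℝ ∞ (χ₂ : ℝ → ℝ) := χ₂.contDiff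
  refine ⟨fun z => χ₁ z.1 * χ₂ z.2 * g z, ?_, ?_⟩
  · rw [contDiff_iff_contDiffAt]
    intro z
    by_cases hz : |z.1 - c₁| ≤ r₁ + δ ∧ |z.2 - c₂| ≤ r₂ + δ
    · have h1 : ContDiffAt ℝ ∞ g z := hg.contDiffAt (hO.mem_nhds (hsub z hz.1 hz.2))
      have h2 : ContDiff ℝ ∞ fun z : ℝ × ℝ => χ₁ z.1 * χ₂ z.2 :=
        (hχ₁.comp contDiff_fst).mul (hχ₂.comp contDiff_snd)
      exact h2.contDiffAt.mul h1
    · have h3 : ∀ᶠ y : ℝ × ℝ in 𝓝 z, χ₁ y.1 * χ₂ y.2 * g y = 0 := by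
        rw [not_and_or, not_le, not_le] at hz
        rcases hz with hz | hz
        · have h4 : ∀ᶠ y : ℝ × ℝ in 𝓝 z, r₁ + δ < |y.1 - c₁| := by
            have : Continuous fun y : ℝ × ℝ => |y.1 - c₁| := by fun_prop
            exact this.continuousAt.eventually (lt_mem_nhds hz)
          filter_upwards [h4] with y hy
          have h5 : χ₁ y.1 = 0 := by
            apply χ₁.zero_of_le_dist
            rw [Real.dist_eq]
            exact hy.le
          rw [h5]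
          ring
        · have h4 : ∀ᶠ y : ℝ × ℝ in 𝓝 z, r₂ + δ < |y.2 - c₂| := by
            have : Continuous fun y : ℝ × ℝ => |y.2 - c₂| := by fun_prop
            exact this.continuousAt.eventually (lt_mem_nhds hz)
          filter_upwards [h4] with y hy
          have h5 : χ₂ y.2 = 0 := by
            apply χ₂.zero_of_le_dist
            rw [Real.dist_eq]
            exact hy.le
          rw [h5]
          ring
      have h6 : (fun y : ℝ × ℝ => χ₁ y.1 * χ₂ y.2 * g y) =ᶠ[𝓝 z] fun _ => 0 := h3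
      exact contDiffAt_const.congr_of_eventuallyEq h6
  · intro z h1 h2
    have h3 : χ₁ z.1 = 1 := by
      apply χ₁.one_of_mem_closedBall
      rw [Metric.mem_closedBall, Real.dist_eq]
      exact h1.le
    have h4 : χ₂ z.2 = 1 := by
      apply χ₂.one_of_mem_closedBall
      rw [Metric.mem_closedBall, Real.dist_eq]
      exact h2.le
    simp only [h3, h4, one_mul]

/-- The set `O` contains with a point the vertical segment down (or up) to the level `a`. -/
def VStar (a : ℝ) (O : Set (ℝ × ℝ)) : Prop :=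
  ∀ z ∈ O, ∃ δ : ℝ, 0 < δ ∧ ∀ y : ℝ × ℝ, |y.1 - (a + z.1) / 2| ≤ |z.1 - a| / 2 + δ →
    |y.2 - z.2| ≤ δ → y ∈ O

/-- Near a point the vertical primitive is that of a globally smooth function. -/
theorem exists_glob {a : ℝ} {O : Set (ℝ × ℝ)} (hO : IsOpen O) (hs : VStar a O) {g : ℝ × ℝ → ℝ}
    (hg : ContDiffOn ℝ ∞ g O) {z : ℝ × ℝ} (hz : z ∈ O) :
    ∃ gt : ℝ × ℝ → ℝ, ContDiff ℝ ∞ gt ∧ (∀ᶠ y in 𝓝 z, gt y = g y) ∧
      (∀ᶠ y in 𝓝 z, VP a gt y = VP a g y) ∧ (∀ᶠ y in 𝓝 z, VP a (D2 gt) y = VP a (D2 g) y) := by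
  obtain ⟨δ, hδ, hsub⟩ := hs z hz
  obtain ⟨gt, hgt, hgg⟩ := exists_cut hO (c₁ := (a + z.1) / 2) (c₂ := z.2)
    (r₁ := |z.1 - a| / 2 + δ / 2) (r₂ := δ / 2) (δ := δ / 2) (by positivity) (by positivity)
    (by positivity) (fun y h1 h2 => hsub y (by linarith) (by linarith)) hg
  have hopen : IsOpen {y : ℝ × ℝ | |y.1 - (a + z.1) / 2| < |z.1 - a| / 2 + δ / 2 ∧
      |y.2 - z.2| < δ / 2} := by
    have c1 : Continuous fun y : ℝ × ℝ => |y.1 - (a + z.1) / 2| := by fun_prop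
    have c2 : Continuous fun y : ℝ × ℝ => |y.2 - z.2| := by fun_prop
    exact (isOpen_lt c1 continuous_const).inter (isOpen_lt c2 continuous_const)
  -- the segments of the points near `z`
  have hseg : ∀ᶠ y : ℝ × ℝ in 𝓝 z, ∀ t ∈ uIcc a y.1, |t - (a + z.1) / 2| < |z.1 - a| / 2 + δ / 2 ∧
      |y.2 - z.2| < δ / 2 := by
    filter_upwards [Metric.ball_mem_nhds z (half_pos hδ)] with y hy t ht
    rw [Metric.mem_ball, Prod.dist_eq, max_lt_iff, Real.dist_eq, Real.dist_eq] at hy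
    refine ⟨?_, hy.2⟩
    have h1 := abs_lt.1 hy.1
    rw [abs_lt]
    rcases le_total a y.1 with h2 | h2
    · rw [uIcc_of_le h2] at ht
      have h3 := neg_abs_le (z.1 - a)
      have h4 := le_abs_self (z.1 - a)
      constructor <;> linarith [ht.1, ht.2]
    · rw [uIcc_of_ge h2] at ht
      have h3 := neg_abs_le (z.1 - a)
      have h4 := le_abs_self (z.1 - a)
      constructor <;> linarith [ht.1, ht.2]
  have hev : ∀ y : ℝ × ℝ, |y.1 - (a + z.1) / 2| < |z.1 - a| / 2 + δ / 2 → |y.2 - z.2| < δ / 2 →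
      gt =ᶠ[𝓝 y] g := by
    intro y h1 h2
    filter_upwards [hopen.mem_nhds ⟨h1, h2⟩] with x hx
    exact hgg x hx.1 hx.2
  refine ⟨gt, hgt, ?_, ?_, ?_⟩
  · filter_upwards [hseg] with y hy
    have := hy y.1 right_mem_uIcc
    exact hgg y this.1 this.2
  · filter_upwards [hseg] with y hy
    unfold VP
    apply intervalIntegral.integral_congr
    intro t ht
    exact hgg (t, y.2) (hy t ht).1 (hy t ht).2
  · filter_upwards [hseg] with y hy
    unfold VP
    apply intervalIntegral.integral_congr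
    intro t ht
    have h5 : fderiv ℝ gt (t, y.2) = fderiv ℝ g (t, y.2) :=
      (hev (t, y.2) (hy t ht).1 (hy t ht).2).fderiv_eq
    simp only [D2, h5]

theorem VP_smoothOn {a : ℝ} {O : Set (ℝ × ℝ)} (hO : IsOpen O) (hs : VStar a O) {g : ℝ × ℝ → ℝ}
    (hg : ContDiffOn ℝ ∞ g O) : ContDiffOn ℝ ∞ (VP a g) O := by
  intro z hz
  obtain ⟨gt, hgt, -, h2, -⟩ := exists_glob hO hs hg hz
  have h3 : VP a g =ᶠ[𝓝 z] VP a gt := h2.mono fun y hy => hy.symm
  exact ((VP_smooth a hgt).contDiffAt.congr_of_eventuallyEq h3).contDiffWithinAt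

theorem VP_hasFDerivAt' {a : ℝ} {O : Set (ℝ × ℝ)} (hO : IsOpen O) (hs : VStar a O)
    {g : ℝ × ℝ → ℝ} (hg : ContDiffOn ℝ ∞ g O) {z : ℝ × ℝ} (hz : z ∈ O) :
    HasFDerivAt (VP a g) (g z • ContinuousLinearMap.fst ℝ ℝ ℝ
      + VP a (D2 g) z • ContinuousLinearMap.snd ℝ ℝ ℝ) z := by
  obtain ⟨gt, hgt, h1, h2, h3⟩ := exists_glob hO hs hg hz
  have h4 := VP_hasFDerivAt a hgt z
  rw [h1.self_of_nhds, h3.self_of_nhds] at h4
  exact h4.congr_of_eventuallyEq (h2.mono fun y hy => hy.symm)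

theorem isOpen_SC : IsOpen SC := by
  unfold SC
  apply IsOpen.union
  · exact isOpen_lt continuous_fst continuous_const
  · exact isOpen_ne_fun (by fun_prop) continuous_const

theorem vstar_SC {a : ℝ} (ha : a < 0) : VStar a SC := by
  intro z hz
  rcases hz with hz | hz
  · -- the whole segment is in the lower half plane
    refine ⟨min (-a) (-z.1) / 2, by
      have : 0 < min (-a) (-z.1) := lt_min (by linarith) (by linarith)
      linarith, fun y h1 _ => ?_⟩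
    left
    have h2 := (abs_le.1 h1).2
    change y.1 < 0
    rcases le_total a z.1 with h | h
    · rw [abs_of_nonneg (by linarith : 0 ≤ z.1 - a), min_eq_right (by linarith)] at h2
      linarith
    · rw [abs_of_nonpos (by linarith : z.1 - a ≤ 0), min_eq_left (by linarith)] at h2
      linarith
  · have h1 : ∀ᶠ s in 𝓝 z.2, Real.sin s ≠ 0 :=
      Real.continuous_sin.continuousAt.eventually_ne hz
    rw [Metric.eventually_nhds_iff] at h1
    obtain ⟨δ, hδ, h2⟩ := h1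
    refine ⟨δ / 2, by positivity, fun y _ h3 => ?_⟩
    right
    apply h2
    rw [Real.dist_eq]
    linarith

end Pool.Agent.Helper95.VPrim
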