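import Pool.Agent.Helper25.PCap.GoalsS
import Pool.Agent.Helper25.PCap.GoalsF
import Pool.Agent.Helper95.PCap.VPrim

/-!
# Packet S14: the hodograph function of the segment
-/

set_option autoImplicit false

open MeasureTheory Set Filter Topology
open scoped ContDiff Real

noncomputable section

namespace Pool.Agent.Helper95.S14

open Pool.Agent.Helper25.PCap Pool.Agent.Helper95.VPrim

section
variable {κ : ℝ} (S : SData κ)

/-- The right hand side of the equation in `θ` at `τ = -1`. -/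
def RR (s : ℝ) : ℝ := S.u (-1, s) - 1 + D1 S.u (-1, s) / κ

theorem mem_SC_neg {t s : ℝ} (ht : t < 0) : (t, s) ∈ SC := Or.inl ht

theorem SC_add {t s : ℝ} : (t, s + π) ∈ SC ↔ (t, s) ∈ SC := by
  unfold SC
  simp [Real.sin_add_pi]

theorem SC_neg {t s : ℝ} : (t, -s) ∈ SC ↔ (t, s) ∈ SC := by
  unfold SC
  simp [Real.sin_neg]

theorem u_diff {z : ℝ × ℝ} (hz : z ∈ SC) : DifferentiableAt ℝ S.u z :=
  (S.smooth.contDiffAt (isOpen_SC.mem_nhds hz)).differentiableAt (by simp)

theorem D1u_smooth : ContDiffOn ℝ ∞ (D1 S.u) SC := D1_smoothOn isOpen_SC S.smooth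
theorem D2u_smooth : ContDiffOn ℝ ∞ (D2 S.u) SC := D2_smoothOn isOpen_SC S.smooth

theorem D1u_per {t s : ℝ} (h : (t, s) ∈ SC) : D1 S.u (t, s + π) = D1 S.u (t, s) := by
  have h1 := hasDerivAt_D1 (u_diff S (SC_add.2 h))
  have h2 := hasDerivAt_D1 (u_diff S h)
  simp only [S.per] at h1
  exact h1.unique h2

theorem D1u_even {t s : ℝ} (h : (t, s) ∈ SC) : D1 S.u (t, -s) = D1 S.u (t, s) := by
  have h1 := hasDerivAt_D1 (u_diff S (SC_neg.2 h))
  have h2 := hasDerivAt_D1 (u_diff S h)
  simp only [S.even] at h1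
  exact h1.unique h2

theorem RR_smooth : ContDiff ℝ ∞ (RR S) := by
  have hm : ContDiff ℝ ∞ (fun s : ℝ => ((-1, s) : ℝ × ℝ)) := by fun_prop
  have hmem : ∀ s : ℝ, ((-1, s) : ℝ × ℝ) ∈ SC := fun s => Or.inl (by norm_num)
  have h1 : ContDiff ℝ ∞ (fun s : ℝ => S.u (-1, s)) := by
    rw [contDiff_iff_contDiffAt]
    intro s
    exact (S.smooth.contDiffAt (isOpen_SC.mem_nhds (hmem s))).comp s hm.contDiffAt
  have h2 : ContDiff ℝ ∞ (fun s : ℝ => D1 S.u (-1, s)) := by
    rw [contDiff_iff_contDiffAt]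
    intro s
    exact ((D1u_smooth S).contDiffAt (isOpen_SC.mem_nhds (hmem s))).comp s hm.contDiffAt
  unfold RR
  exact (h1.sub contDiff_const).add (h2.div_const κ)

theorem RR_per (s : ℝ) : RR S (s + π) = RR S s := by
  unfold RR
  rw [S.per, D1u_per S (Or.inl (by norm_num))]

theorem RR_even (s : ℝ) : RR S (-s) = RR S s := by
  unfold RR
  rw [S.even, D1u_even S (Or.inl (by norm_num))]

/-- The two primitives. -/
def PA' (θ : ℝ) : ℝ := ∫ s in (0 : ℝ)..θ, Real.cos s * RR S s
def PB (θ : ℝ) : ℝ := ∫ s in (0 : ℝ)..θ, Real.sin s * RR S s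

theorem RR_cont : Continuous (RR S) := (RR_smooth S).continuous

theorem PA_deriv (θ : ℝ) : HasDerivAt (PA' S) (Real.cos θ * RR S θ) θ := by
  have h : Continuous fun s => Real.cos s * RR S s := Real.continuous_cos.mul (RR_cont S)
  exact (h.integral_hasStrictDerivAt 0 θ).hasDerivAt

theorem PB_deriv (θ : ℝ) : HasDerivAt (PB S) (Real.sin θ * RR S θ) θ := by
  have h : Continuous fun s => Real.sin s * RR S s := Real.continuous_sin.mul (RR_cont S)
  exact (h.integral_hasStrictDerivAt 0 θ).hasDerivAt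

theorem PA_smooth : ContDiff ℝ ∞ (PA' S) := by
  rw [contDiff_infty_iff_deriv]
  refine ⟨fun θ => (PA_deriv S θ).differentiableAt, ?_⟩
  have : deriv (PA' S) = fun θ => Real.cos θ * RR S θ := by
    funext θ
    exact (PA_deriv S θ).deriv
  rw [this]
  exact Real.contDiff_cos.mul (RR_smooth S)

theorem PB_smooth : ContDiff ℝ ∞ (PB S) := by
  rw [contDiff_infty_iff_deriv]
  refine ⟨fun θ => (PB_deriv S θ).differentiableAt, ?_⟩
  have : deriv (PB S) = fun θ => Real.sin θ * RR S θ := by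
    funext θ
    exact (PB_deriv S θ).deriv
  rw [this]
  exact Real.contDiff_sin.mul (RR_smooth S)

theorem PA_neg (θ : ℝ) : PA' S (-θ) = -PA' S θ := by
  unfold PA'
  have h := intervalIntegral.integral_comp_neg (a := 0) (b := θ)
    (fun s => Real.cos s * RR S s)
  simp only [Real.cos_neg, RR_even, neg_zero] at h
  rw [intervalIntegral.integral_symm, ← h]

theorem PB_neg (θ : ℝ) : PB S (-θ) = PB S θ := by
  unfold PB
  have h := intervalIntegral.integral_comp_neg (a := 0) (b := θ)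
    (fun s => Real.sin s * RR S s)
  simp only [Real.sin_neg, RR_even, neg_zero, neg_mul, intervalIntegral.integral_neg] at h
  rw [intervalIntegral.integral_symm, ← h, neg_neg]

theorem PA_pi : PA' S π = 0 := by
  unfold PA'
  have h := intervalIntegral.integral_comp_sub_left (a := 0) (b := π)
    (fun s => Real.cos s * RR S s) π
  have e : ∀ s, RR S (π - s) = RR S s := by
    intro s
    rw [← RR_even, ← RR_per]
    congr 1
    ring
  simp only [Real.cos_pi_sub, e, sub_self, sub_zero, neg_mul, intervalIntegral.integral_neg] at h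
  linarith

theorem PA_add (θ : ℝ) : PA' S (θ + π) = -PA' S θ := by
  have h : Continuous fun s => Real.cos s * RR S s := Real.continuous_cos.mul (RR_cont S)
  have h1 : PA' S (θ + π) = PA' S π + ∫ s in π..(θ + π), Real.cos s * RR S s := by
    unfold PA'
    rw [intervalIntegral.integral_add_adjacent_intervals (h.intervalIntegrable _ _)
      (h.intervalIntegrable _ _)]
  have h2 : ∫ s in π..(θ + π), Real.cos s * RR S s = -PA' S θ := by
    have h3 := intervalIntegral.integral_comp_add_right (a := 0) (b := θ)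
      (fun s => Real.cos s * RR S s) π
    simp only [Real.cos_add_pi, RR_per, zero_add, neg_mul, intervalIntegral.integral_neg] at h3
    rw [← h3]
    rfl
  rw [h1, h2, PA_pi, zero_add]

theorem PB_add (θ : ℝ) : PB S (θ + π) = PB S π - PB S θ := by
  have h : Continuous fun s => Real.sin s * RR S s := Real.continuous_sin.mul (RR_cont S)
  have h1 : PB S (θ + π) = PB S π + ∫ s in π..(θ + π), Real.sin s * RR S s := by
    unfold PB
    rw [intervalIntegral.integral_add_adjacent_intervals (h.intervalIntegrable _ _)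
      (h.intervalIntegrable _ _)]
  have h2 : ∫ s in π..(θ + π), Real.sin s * RR S s = -PB S θ := by
    have h3 := intervalIntegral.integral_comp_add_right (a := 0) (b := θ)
      (fun s => Real.sin s * RR S s) π
    simp only [Real.sin_add_pi, RR_per, zero_add, neg_mul, intervalIntegral.integral_neg] at h3
    rw [← h3]
    rfl
  rw [h1, h2]
  ring

/-- The values at `τ = -1`. -/
def w0 (θ : ℝ) : ℝ := PB S π / 2 * Real.cos θ + Real.sin θ * PA' S θ - Real.cos θ * PB S θ

/-- The derivative of `w0`. -/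
def w1 (θ : ℝ) : ℝ := -(PB S π / 2 * Real.sin θ) + Real.cos θ * PA' S θ + Real.sin θ * PB S θ

theorem w0_deriv (θ : ℝ) : HasDerivAt (w0 S) (w1 S θ) θ := by
  have h1 := (Real.hasDerivAt_cos θ).const_mul (PB S π / 2)
  have h2 := (Real.hasDerivAt_sin θ).mul (PA_deriv S θ)
  have h3 := (Real.hasDerivAt_cos θ).mul (PB_deriv S θ)
  have h4 := (h1.add h2).sub h3
  convert! h4 using 1
  unfold w1
  ring

theorem w1_deriv (θ : ℝ) : HasDerivAt (w1 S) (RR S θ - w0 S θ) θ := by
  have h1 := ((Real.hasDerivAt_sin θ).const_mul (PB S π / 2)).neg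
  have h2 := (Real.hasDerivAt_cos θ).mul (PA_deriv S θ)
  have h3 := (Real.hasDerivAt_sin θ).mul (PB_deriv S θ)
  have h4 := (h1.add h2).add h3
  convert! h4 using 1
  unfold w0
  have := Real.sin_sq_add_cos_sq θ
  linear_combination (-RR S θ) * this

theorem w0_smooth : ContDiff ℝ ∞ (w0 S) := by
  unfold w0
  have h1 := PA_smooth S
  have h2 := PB_smooth S
  have h3 := Real.contDiff_cos (n := ∞)
  have h4 := Real.contDiff_sin (n := ∞)
  exact ((contDiff_const.mul h3).add (h4.mul h1)).sub (h3.mul h2)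

theorem w0_per (θ : ℝ) : w0 S (θ + π) = w0 S θ := by
  unfold w0
  rw [PA_add, PB_add, Real.cos_add_pi, Real.sin_add_pi]
  ring

theorem w0_even (θ : ℝ) : w0 S (-θ) = w0 S θ := by
  unfold w0
  rw [PA_neg, PB_neg, Real.cos_neg, Real.sin_neg]
  ring

theorem w0_bdd : ∃ M : ℝ, ∀ θ, |w0 S θ| ≤ M := by
  have h1 : IsCompact (range (w0 S)) :=
    Function.Periodic.compact_of_continuous (w0_per S) Real.pi_ne_zero (w0_smooth S).continuous
  obtain ⟨M, hM⟩ := h1.isBounded.exists_norm_le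
  exact ⟨M, fun θ => hM _ (mem_range_self θ)⟩

theorem w0_integral : ∫ θ in (0 : ℝ)..(2 * π), w0 S θ = ∫ θ in (0 : ℝ)..(2 * π), RR S θ := by
  have h1 : ∫ θ in (0 : ℝ)..(2 * π), (RR S θ - w0 S θ) = w1 S (2 * π) - w1 S 0 := by
    apply intervalIntegral.integral_eq_sub_of_hasDerivAt
    · intro θ _
      exact w1_deriv S θ
    · exact ((RR_cont S).sub (w0_smooth S).continuous).intervalIntegrable _ _
  have h2 : w1 S (2 * π) = w1 S 0 := by
    unfold w1
    have e1 : PA' S (2 * π) = PA' S 0 := by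
      have := PA_add S π
      rw [← two_mul] at this
      rw [this, PA_pi]
      simp [PA']
    rw [e1]
    simp
  rw [h2, sub_self, intervalIntegral.integral_sub ((RR_cont S).intervalIntegrable _ _)
    ((w0_smooth S).continuous.intervalIntegrable _ _)] at h1
  linarith

/-- The integrand. -/
def gS (z : ℝ × ℝ) : ℝ := Real.exp (-z.1) * (1 - S.u z)

theorem gS_cont : Continuous (gS S) := by
  have := S.cont
  unfold gS
  fun_prop

theorem gS_smooth : ContDiffOn ℝ ∞ (gS S) SC := by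
  have h1 : ContDiff ℝ ∞ (fun z : ℝ × ℝ => Real.exp (-z.1)) := by fun_prop
  exact h1.contDiffOn.mul (contDiffOn_const.sub S.smooth)

theorem star : VStar (-1) SC := vstar_SC (by norm_num)

theorem gS_deriv {f : ℝ × ℝ → ℝ} {z : ℝ × ℝ} (hf : DifferentiableAt ℝ f z) (c : ℝ) :
    HasFDerivAt (fun z : ℝ × ℝ => Real.exp (-z.1) * (c - f z))
      ((-(Real.exp (-z.1) * (c - f z)) - Real.exp (-z.1) * D1 f z) • ContinuousLinearMap.fst ℝ ℝ ℝ
        + (-(Real.exp (-z.1) * D2 f z)) • ContinuousLinearMap.snd ℝ ℝ ℝ) z := by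
  have h1 : HasFDerivAt (fun z : ℝ × ℝ => Real.exp (-z.1))
      ((-Real.exp (-z.1)) • ContinuousLinearMap.fst ℝ ℝ ℝ) z := by
    have h2 : HasDerivAt (fun t : ℝ => Real.exp (-t)) (-Real.exp (-z.1)) z.1 := by
      have := (Real.hasDerivAt_exp (-z.1)).comp z.1 (hasDerivAt_neg z.1)
      convert! this using 1
      ring
    exact h2.comp_hasFDerivAt z hasFDerivAt_fst
  have h3 := h1.mul ((hasFDerivAt_D hf).const_sub c)
  convert! h3 using 1
  ext <;> simp <;> ring

theorem D2gS {z : ℝ × ℝ} (hz : z ∈ SC) : D2 (gS S) z = -(Real.exp (-z.1) * D2 S.u z) :=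
  D2_of (gS_deriv (u_diff S hz) 1)

theorem D2u_diff {z : ℝ × ℝ} (hz : z ∈ SC) : DifferentiableAt ℝ (D2 S.u) z :=
  ((D2u_smooth S).contDiffAt (isOpen_SC.mem_nhds hz)).differentiableAt (by simp)

theorem D1u_diff {z : ℝ × ℝ} (hz : z ∈ SC) : DifferentiableAt ℝ (D1 S.u) z :=
  ((D1u_smooth S).contDiffAt (isOpen_SC.mem_nhds hz)).differentiableAt (by simp)

theorem D2D2gS {z : ℝ × ℝ} (hz : z ∈ SC) :
    D2 (D2 (gS S)) z = -(Real.exp (-z.1) * D2 (D2 S.u) z) := by
  have h1 : D2 (gS S) =ᶠ[𝓝 z] fun z => Real.exp (-z.1) * (0 - D2 S.u z) := by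
    filter_upwards [isOpen_SC.mem_nhds hz] with y hy
    rw [D2gS S hy]
    ring
  rw [D2_congr h1]
  exact D2_of (gS_deriv (D2u_diff S hz) 0)

/-- The hodograph function. -/
def WS (z : ℝ × ℝ) : ℝ := Real.exp z.1 * (Real.exp 1 * w0 S z.2 + VP (-1) (gS S) z)

theorem E_deriv {h : ℝ → ℝ} {h' a b : ℝ} {G : ℝ × ℝ → ℝ} {z : ℝ × ℝ} (c : ℝ)
    (hh : HasDerivAt h h' z.2)
    (hG : HasFDerivAt G (a • ContinuousLinearMap.fst ℝ ℝ ℝ + b • ContinuousLinearMap.snd ℝ ℝ ℝ) z) :
    HasFDerivAt (fun z => Real.exp z.1 * (c * h z.2 + G z))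
      ((Real.exp z.1 * (c * h z.2 + G z) + Real.exp z.1 * a) • ContinuousLinearMap.fst ℝ ℝ ℝ
        + (Real.exp z.1 * (c * h' + b)) • ContinuousLinearMap.snd ℝ ℝ ℝ) z := by
  have h1 : HasFDerivAt (fun z : ℝ × ℝ => Real.exp z.1)
      (Real.exp z.1 • ContinuousLinearMap.fst ℝ ℝ ℝ) z :=
    (Real.hasDerivAt_exp z.1).comp_hasFDerivAt z hasFDerivAt_fst
  have h2 : HasFDerivAt (fun z : ℝ × ℝ => h z.2) (h' • ContinuousLinearMap.snd ℝ ℝ ℝ) z :=
    hh.comp_hasFDerivAt z hasFDerivAt_snd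
  have h3 := h1.mul ((h2.const_mul c).add hG)
  convert! h3 using 1
  ext <;> simp <;> ring

theorem WS_smooth : ContDiffOn ℝ ∞ (WS S) SC := by
  have h1 : ContDiff ℝ ∞ (fun z : ℝ × ℝ => Real.exp z.1) := by fun_prop
  have h2 : ContDiff ℝ ∞ (fun z : ℝ × ℝ => Real.exp 1 * w0 S z.2) :=
    contDiff_const.mul ((w0_smooth S).comp contDiff_snd)
  exact h1.contDiffOn.mul (h2.contDiffOn.add (VP_smoothOn isOpen_SC star (gS_smooth S)))

theorem WS_deriv {z : ℝ × ℝ} (hz : z ∈ SC) : HasFDerivAt (WS S)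
    ((Real.exp z.1 * (Real.exp 1 * w0 S z.2 + VP (-1) (gS S) z) + Real.exp z.1 * gS S z) •
        ContinuousLinearMap.fst ℝ ℝ ℝ
      + (Real.exp z.1 * (Real.exp 1 * w1 S z.2 + VP (-1) (D2 (gS S)) z)) •
        ContinuousLinearMap.snd ℝ ℝ ℝ) z :=
  E_deriv (z := z) (Real.exp 1) (w0_deriv S z.2)
    (VP_hasFDerivAt' isOpen_SC star (gS_smooth S) hz)

theorem D1WS {z : ℝ × ℝ} (hz : z ∈ SC) : D1 (WS S) z = WS S z + (1 - S.u z) := by
  rw [D1_of (WS_deriv S hz)]
  unfold WS gS
  have h2 : Real.exp z.1 * Real.exp (-z.1) = 1 := by rw [← Real.exp_add]; simp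
  linear_combination (1 - S.u z) * h2

theorem D2WS {z : ℝ × ℝ} (hz : z ∈ SC) :
    D2 (WS S) z = Real.exp z.1 * (Real.exp 1 * w1 S z.2 + VP (-1) (D2 (gS S)) z) :=
  D2_of (WS_deriv S hz)

theorem D1D1WS {z : ℝ × ℝ} (hz : z ∈ SC) : D1 (D1 (WS S)) z = D1 (WS S) z - D1 S.u z := by
  have h1 : D1 (WS S) =ᶠ[𝓝 z] fun z => WS S z + (1 - S.u z) := by
    filter_upwards [isOpen_SC.mem_nhds hz] with y hy
    exact D1WS S hy
  rw [D1_congr h1]
  have hW : DifferentiableAt ℝ (WS S) z :=
    ((WS_smooth S).contDiffAt (isOpen_SC.mem_nhds hz)).differentiableAt (by simp)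
  have h3 := (hasFDerivAt_D hW).add ((hasFDerivAt_D (u_diff S hz)).const_sub 1)
  have h4 : HasFDerivAt (fun z => WS S z + (1 - S.u z))
      ((D1 (WS S) z - D1 S.u z) • ContinuousLinearMap.fst ℝ ℝ ℝ
        + (D2 (WS S) z - D2 S.u z) • ContinuousLinearMap.snd ℝ ℝ ℝ) z := by
    convert! h3 using 1
    ext <;> simp <;> ring
  exact D1_of h4

theorem D2gS_smooth : ContDiffOn ℝ ∞ (D2 (gS S)) SC := D2_smoothOn isOpen_SC (gS_smooth S)

theorem D2D2gS_smooth : ContDiffOn ℝ ∞ (D2 (D2 (gS S))) SC := D2_smoothOn isOpen_SC (D2gS_smooth S)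

theorem D2D2WS {z : ℝ × ℝ} (hz : z ∈ SC) : D2 (D2 (WS S)) z =
    Real.exp z.1 * (Real.exp 1 * (RR S z.2 - w0 S z.2) + VP (-1) (D2 (D2 (gS S))) z) := by
  have h1 : D2 (WS S) =ᶠ[𝓝 z]
      fun z => Real.exp z.1 * (Real.exp 1 * w1 S z.2 + VP (-1) (D2 (gS S)) z) := by
    filter_upwards [isOpen_SC.mem_nhds hz] with y hy
    exact D2WS S hy
  rw [D2_congr h1]
  exact D2_of (E_deriv (z := z) (Real.exp 1) (w1_deriv S z.2)
    (VP_hasFDerivAt' isOpen_SC star (D2gS_smooth S) hz))

/-- the segment lies in `SC` -/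
theorem seg_mem {z : ℝ × ℝ} (hz : z ∈ SC) {t : ℝ} (ht : t ∈ uIcc (-1) z.1) : (t, z.2) ∈ SC := by
  rcases hz with hz | hz
  · left
    change t < 0
    have := ht.2
    exact this.trans_lt (max_lt (by norm_num) hz)
  · right
    exact hz

theorem seg_cont {f : ℝ × ℝ → ℝ} (hf : ContDiffOn ℝ ∞ f SC) {z : ℝ × ℝ} (hz : z ∈ SC) :
    ContinuousOn (fun t => f (t, z.2)) (uIcc (-1) z.1) := by
  have h1 : ContinuousOn (fun t : ℝ => ((t, z.2) : ℝ × ℝ)) (uIcc (-1) z.1) := by fun_prop
  exact hf.continuousOn.comp h1 fun t ht => seg_mem hz ht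

theorem VP_rel (hκ : 0 < κ) {z : ℝ × ℝ} (hz : z ∈ SC) :
    κ * (VP (-1) (gS S) z + VP (-1) (D2 (D2 (gS S))) z)
      = Real.exp (-z.1) * (D1 S.u z + κ * S.u z - κ) - Real.exp 1 * (κ * RR S z.2) := by
  have hc1 := seg_cont (gS_smooth S) hz
  have hc2 := seg_cont (D2D2gS_smooth S) hz
  have hi1 : IntervalIntegrable (fun t => κ * gS S (t, z.2)) volume (-1) z.1 :=
    (continuousOn_const.mul hc1).intervalIntegrable
  have hi2 : IntervalIntegrable (fun t => κ * D2 (D2 (gS S)) (t, z.2)) volume (-1) z.1 :=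
    (continuousOn_const.mul hc2).intervalIntegrable
  have h1 : ∫ t in (-1 : ℝ)..z.1, (κ * gS S (t, z.2) + κ * D2 (D2 (gS S)) (t, z.2))
      = Real.exp (-z.1) * (D1 S.u (z.1, z.2) + κ * S.u (z.1, z.2) - κ)
        - Real.exp (-(-1)) * (D1 S.u (-1, z.2) + κ * S.u (-1, z.2) - κ) := by
    apply intervalIntegral.integral_eq_sub_of_hasDerivAt
      (f := fun t => Real.exp (-t) * (D1 S.u (t, z.2) + κ * S.u (t, z.2) - κ))
    · intro t ht
      have hm := seg_mem hz ht
      have h2 : HasDerivAt (fun t : ℝ => Real.exp (-t)) (-Real.exp (-t)) t := by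
        have := (Real.hasDerivAt_exp (-t)).comp t (hasDerivAt_neg t)
        convert! this using 1
        ring
      have h3 := hasDerivAt_D1 (u_diff S hm)
      have h4 := hasDerivAt_D1 (D1u_diff S hm)
      have h5 := h2.mul ((h4.add (h3.const_mul κ)).sub_const κ)
      convert! h5 using 1
      rw [D2D2gS S hm]
      have h6 := S.eq _ hm
      unfold LL at h6
      simp only [gS, Pi.add_apply]
      linear_combination (-Real.exp (-t)) * h6
    · exact hi1.add hi2
  rw [intervalIntegral.integral_add hi1 hi2, intervalIntegral.integral_const_mul,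
    intervalIntegral.integral_const_mul, neg_neg] at h1
  have h7 : κ * RR S z.2 = D1 S.u (-1, z.2) + κ * S.u (-1, z.2) - κ := by
    unfold RR
    field_simp
    ring
  rw [h7]
  unfold VP
  linear_combination h1

theorem LL_WS (hκ : 0 < κ) {z : ℝ × ℝ} (hz : z ∈ SC) : LL κ (WS S) z = 0 := by
  unfold LL
  rw [D1D1WS S hz, D2D2WS S hz, D1WS S hz]
  have h1 := VP_rel S hκ hz
  have h2 : Real.exp z.1 * Real.exp (-z.1) = 1 := by rw [← Real.exp_add]; simp
  unfold WS
  linear_combination Real.exp z.1 * h1 + (D1 S.u z + κ * S.u z - κ) * h2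

theorem WS_per (τ θ : ℝ) : WS S (τ, θ + π) = WS S (τ, θ) := by
  unfold WS VP gS
  simp only [w0_per, S.per]

theorem WS_even (τ θ : ℝ) : WS S (τ, -θ) = WS S (τ, θ) := by
  unfold WS VP gS
  simp only [w0_even, S.even]

theorem int_exp_neg (a b : ℝ) : ∫ t in a..b, Real.exp (-t) = Real.exp (-a) - Real.exp (-b) := by
  have h : ∫ t in a..b, Real.exp (-t) = -Real.exp (-b) - -Real.exp (-a) := by
    apply intervalIntegral.integral_eq_sub_of_hasDerivAt (f := fun t => -Real.exp (-t))
    · intro t _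
      have := ((Real.hasDerivAt_exp (-t)).comp t (hasDerivAt_neg t)).neg
      convert! this using 1
      ring
    · exact (by fun_prop : Continuous fun t : ℝ => Real.exp (-t)).intervalIntegrable _ _
  rw [h]
  ring

theorem int_exp_mul {κ : ℝ} (hκ : 0 < κ) (a b : ℝ) :
    ∫ t in a..b, Real.exp (-(κ * t)) = (Real.exp (-(κ * a)) - Real.exp (-(κ * b))) / κ := by
  have h : ∫ t in a..b, Real.exp (-(κ * t))
      = -(Real.exp (-(κ * b)) / κ) - -(Real.exp (-(κ * a)) / κ) := by
    apply intervalIntegral.integral_eq_sub_of_hasDerivAt (f := fun t => -(Real.exp (-(κ * t)) / κ))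
    · intro t _
      have h1 : HasDerivAt (fun t : ℝ => -(κ * t)) (-κ) t := by
        have := ((hasDerivAt_id t).const_mul κ).neg
        convert! this using 1
        simp
      have := (h1.exp.div_const κ).neg
      convert! this using 1
      field_simp
    · exact (by fun_prop : Continuous fun t : ℝ => Real.exp (-(κ * t))).intervalIntegrable _ _
  rw [h]
  ring

theorem WS_bound (hκ : 0 < κ) (hκ1 : κ < 1) : ∃ A : ℝ, ∀ z : ℝ × ℝ, z.1 ≤ -1 →
    |WS S z + 1| ≤ A * Real.exp ((1 - κ) * z.1) := by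
  obtain ⟨M, hM⟩ := w0_bdd S
  have hM0 : 0 ≤ M := (abs_nonneg _).trans (hM 0)
  refine ⟨Real.exp 1 * M + Real.exp 1 + 1 / κ, fun z hz => ?_⟩
  have hcu : Continuous fun t => Real.exp (-t) * S.u (t, z.2) := by
    have := S.cont
    fun_prop
  have hce : Continuous fun t : ℝ => Real.exp (-t) := by fun_prop
  have h1 : VP (-1) (gS S) z = (Real.exp 1 - Real.exp (-z.1))
      + ∫ t in z.1..(-1), Real.exp (-t) * S.u (t, z.2) := by
    unfold VP gS
    have h2 : ∀ t : ℝ, Real.exp (-((t, z.2) : ℝ × ℝ).1) * (1 - S.u (t, z.2))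
        = Real.exp (-t) - Real.exp (-t) * S.u (t, z.2) := by
      intro t
      simp only
      ring
    simp only [h2]
    rw [intervalIntegral.integral_sub (hce.intervalIntegrable _ _) (hcu.intervalIntegrable _ _),
      int_exp_neg, neg_neg, intervalIntegral.integral_symm (-1) z.1]
    ring
  have h3 : |∫ t in z.1..(-1), Real.exp (-t) * S.u (t, z.2)| ≤ Real.exp (-(κ * z.1)) / κ := by
    have h4 : |∫ t in z.1..(-1), Real.exp (-t) * S.u (t, z.2)|
        ≤ ∫ t in z.1..(-1), Real.exp (-(κ * t)) := by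
      rw [← Real.norm_eq_abs]
      apply intervalIntegral.norm_integral_le_of_norm_le hz
      · refine Eventually.of_forall fun t _ => ?_
        rw [Real.norm_eq_abs, abs_mul, abs_of_pos (Real.exp_pos _), abs_of_pos (S.pos _)]
        calc Real.exp (-t) * S.u (t, z.2) ≤ Real.exp (-t) * Real.exp ((1 - κ) * t) :=
              mul_le_mul_of_nonneg_left (S.upper (t, z.2)) (Real.exp_pos _).le
          _ = Real.exp (-(κ * t)) := by
              rw [← Real.exp_add]
              congr 1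
              ring
      · exact (by fun_prop : Continuous fun t : ℝ => Real.exp (-(κ * t))).intervalIntegrable _ _
    rw [int_exp_mul hκ] at h4
    refine h4.trans ?_
    apply div_le_div_of_nonneg_right _ hκ.le
    linarith [Real.exp_pos (-(κ * (-1)))]
  have h5 : WS S z + 1 = Real.exp z.1 * (Real.exp 1 * w0 S z.2 + Real.exp 1
      + ∫ t in z.1..(-1), Real.exp (-t) * S.u (t, z.2)) := by
    unfold WS
    rw [h1]
    have h2 : Real.exp z.1 * Real.exp (-z.1) = 1 := by rw [← Real.exp_add]; simp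
    linear_combination -h2
  rw [h5, abs_mul, abs_of_pos (Real.exp_pos _)]
  have h6 : |Real.exp 1 * w0 S z.2 + Real.exp 1
      + ∫ t in z.1..(-1), Real.exp (-t) * S.u (t, z.2)|
      ≤ Real.exp 1 * M + Real.exp 1 + Real.exp (-(κ * z.1)) / κ := by
    refine (abs_add_le _ _).trans (add_le_add ((abs_add_le _ _).trans (add_le_add ?_ ?_)) h3)
    · rw [abs_mul, abs_of_pos (Real.exp_pos _)]
      exact mul_le_mul_of_nonneg_left (hM _) (Real.exp_pos _).le
    · rw [abs_of_pos (Real.exp_pos _)]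
  have h7 : Real.exp z.1 ≤ Real.exp ((1 - κ) * z.1) := by
    apply Real.exp_le_exp.2
    nlinarith
  have h8 : Real.exp z.1 * (Real.exp (-(κ * z.1)) / κ) = 1 / κ * Real.exp ((1 - κ) * z.1) := by
    rw [show (1 - κ) * z.1 = z.1 + -(κ * z.1) by ring, Real.exp_add]
    ring
  calc Real.exp z.1 * |Real.exp 1 * w0 S z.2 + Real.exp 1
        + ∫ t in z.1..(-1), Real.exp (-t) * S.u (t, z.2)|
      ≤ Real.exp z.1 * (Real.exp 1 * M + Real.exp 1 + Real.exp (-(κ * z.1)) / κ) :=
        mul_le_mul_of_nonneg_left h6 (Real.exp_pos _).le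
    _ = Real.exp z.1 * (Real.exp 1 * M + Real.exp 1) + 1 / κ * Real.exp ((1 - κ) * z.1) := by
        rw [mul_add, h8]
    _ ≤ Real.exp ((1 - κ) * z.1) * (Real.exp 1 * M + Real.exp 1)
        + 1 / κ * Real.exp ((1 - κ) * z.1) := by
        have := mul_le_mul_of_nonneg_right h7 (by positivity : 0 ≤ Real.exp 1 * M + Real.exp 1)
        linarith
    _ = _ := by ring

theorem D1_mean : ∫ s in (0 : ℝ)..(2 * π), D1 S.u (-1, s)
    = 2 * π * S.C0 * (1 - κ) * Real.exp (-(1 - κ)) := by
  -- a bound for the derivative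
  have hsub : Metric.closedBall (-1 : ℝ) (1 / 2) ×ˢ uIcc 0 (2 * π) ⊆ SC := by
    rintro ⟨t, s⟩ ⟨ht, _⟩
    left
    rw [Metric.mem_closedBall, Real.dist_eq] at ht
    have := (abs_le.1 ht).2
    change t < 0
    simp only at this
    linarith
  have hK : IsCompact (Metric.closedBall (-1 : ℝ) (1 / 2) ×ˢ uIcc 0 (2 * π)) :=
    (isCompact_closedBall _ _).prod isCompact_uIcc
  obtain ⟨M, hM⟩ := hK.exists_bound_of_continuousOn ((D1u_smooth S).continuousOn.mono hsub)
  have hc : ∀ t : ℝ, Continuous fun s => S.u (t, s) := by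
    intro t
    have := S.cont
    fun_prop
  have hc1 : Continuous fun s : ℝ => D1 S.u (-1, s) := by
    rw [continuous_iff_continuousAt]
    intro s
    have h1 : ContinuousAt (D1 S.u) (-1, s) :=
      ((D1u_smooth S).contDiffAt (isOpen_SC.mem_nhds (Or.inl (by norm_num)))).continuousAt
    have h2 : ContinuousAt (fun s : ℝ => ((-1, s) : ℝ × ℝ)) s := by fun_prop
    exact ContinuousAt.comp (f := fun s : ℝ => ((-1, s) : ℝ × ℝ)) h1 h2
  have h3 := intervalIntegral.hasDerivAt_integral_of_dominated_loc_of_deriv_le (𝕜 := ℝ)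
    (μ := volume) (a := 0) (b := 2 * π) (F := fun t s => S.u (t, s))
    (F' := fun t s => D1 S.u (t, s)) (x₀ := (-1 : ℝ)) (bound := fun _ => M)
    (Metric.closedBall_mem_nhds (-1 : ℝ) (by norm_num : (0 : ℝ) < 1 / 2)) ?_ ?_ ?_ ?_ ?_ ?_
  · have h4 := h3.2
    have h5 : (fun t => ∫ s in (0 : ℝ)..(2 * π), S.u (t, s))
        =ᶠ[𝓝 (-1)] fun t => 2 * π * S.C0 * Real.exp ((1 - κ) * t) := by
      filter_upwards [Iio_mem_nhds (show (-1 : ℝ) < 0 by norm_num)] with t ht
      exact S.mean t (le_of_lt ht)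
    have h6 : HasDerivAt (fun t => 2 * π * S.C0 * Real.exp ((1 - κ) * t))
        (2 * π * S.C0 * (1 - κ) * Real.exp (-(1 - κ))) (-1) := by
      have h7 : HasDerivAt (fun t : ℝ => (1 - κ) * t) (1 - κ) (-1) := by
        simpa using (hasDerivAt_id (-1 : ℝ)).const_mul (1 - κ)
      have h8 := h7.exp.const_mul (2 * π * S.C0)
      convert! h8 using 1
      rw [show (1 - κ) * (-1) = -(1 - κ) by ring]
      ring
    exact (h4.congr_of_eventuallyEq h5.symm).unique h6
  · exact Eventually.of_forall fun t => (hc t).aestronglyMeasurable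
  · exact (hc _).intervalIntegrable _ _
  · exact hc1.aestronglyMeasurable
  · exact Eventually.of_forall fun s hs t ht => hM (t, s) ⟨ht, uIoc_subset_uIcc hs⟩
  · exact intervalIntegrable_const
  · refine Eventually.of_forall fun s hs t ht => ?_
    have hm : ((t, s) : ℝ × ℝ) ∈ SC := hsub (mk_mem_prod ht (uIoc_subset_uIcc hs))
    exact hasDerivAt_D1 (u_diff S hm)

theorem RR_integral (hκ : 0 < κ) : ∫ θ in (0 : ℝ)..(2 * π), RR S θ
    = -(2 * π) + 2 * π * S.C0 / κ * Real.exp (-(1 - κ)) := by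
  have hc : Continuous fun s : ℝ => S.u (-1, s) := by
    have := S.cont
    fun_prop
  have hc1 : Continuous fun s : ℝ => D1 S.u (-1, s) / κ := by
    have h1 : (fun s : ℝ => D1 S.u (-1, s) / κ) = fun s => RR S s - (S.u (-1, s) - 1) := by
      funext s
      unfold RR
      ring
    rw [h1]
    exact (RR_cont S).sub (hc.sub continuous_const)
  have hi1 : IntervalIntegrable (fun s => S.u (-1, s) - 1) volume 0 (2 * π) :=
    (hc.sub continuous_const).intervalIntegrable _ _
  unfold RR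
  rw [intervalIntegral.integral_add hi1
    (hc1.intervalIntegrable _ _), intervalIntegral.integral_sub (hc.intervalIntegrable _ _)
    (continuous_const.intervalIntegrable _ _), intervalIntegral.integral_div, D1_mean,
    S.mean (-1) (by norm_num), intervalIntegral.integral_const]
  rw [show (1 - κ) * (-1) = -(1 - κ) by ring]
  simp only [smul_eq_mul]
  field_simp
  ring

theorem WS_mean (hκ : 0 < κ) (τ : ℝ) (hτ : τ < 0) : ∫ θ in (0 : ℝ)..(2 * π), WS S (τ, θ)
    = 2 * π * (-1 + S.C0 / κ * Real.exp ((1 - κ) * τ)) := by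
  have hw : Continuous (w0 S) := (w0_smooth S).continuous
  have hV : Continuous fun θ : ℝ => VP (-1) (gS S) (τ, θ) := by
    have := VP_cont (-1) (gS_cont S)
    fun_prop
  have h1 : ∫ θ in (0 : ℝ)..(2 * π), WS S (τ, θ)
      = Real.exp τ * (Real.exp 1 * (∫ θ in (0 : ℝ)..(2 * π), w0 S θ)
        + ∫ θ in (0 : ℝ)..(2 * π), VP (-1) (gS S) (τ, θ)) := by
    have hi1 : IntervalIntegrable (fun θ => Real.exp 1 * w0 S θ) volume 0 (2 * π) :=
      (continuous_const.mul hw).intervalIntegrable _ _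
    simp only [WS]
    rw [intervalIntegral.integral_const_mul, intervalIntegral.integral_add hi1
      (hV.intervalIntegrable _ _), intervalIntegral.integral_const_mul]
  have h2 : ∫ θ in (0 : ℝ)..(2 * π), VP (-1) (gS S) (τ, θ)
      = ∫ t in (-1 : ℝ)..τ, ∫ θ in (0 : ℝ)..(2 * π), gS S (t, θ) := by
    unfold VP
    apply intervalIntegral_intervalIntegral_swap
      (F := fun θ t => gS S (t, θ))
    have hc : Continuous (Function.uncurry fun (θ t : ℝ) => gS S (t, θ)) :=
      (gS_cont S).comp (continuous_snd.prodMk continuous_fst)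
    have hK : IsCompact (uIcc 0 (2 * π) ×ˢ uIcc (-1) τ) := isCompact_uIcc.prod isCompact_uIcc
    exact (hc.continuousOn.integrableOn_compact hK).mono_set
      (prod_mono uIoc_subset_uIcc uIoc_subset_uIcc)
  have h3 : ∫ t in (-1 : ℝ)..τ, ∫ θ in (0 : ℝ)..(2 * π), gS S (t, θ)
      = ∫ t in (-1 : ℝ)..τ, (2 * π * Real.exp (-t) - 2 * π * S.C0 * Real.exp (-(κ * t))) := by
    apply intervalIntegral.integral_congr
    intro t ht
    have ht0 : t ≤ 0 := ht.2.trans (max_le (by norm_num) hτ.le)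
    have hc : Continuous fun s => S.u (t, s) := by
      have := S.cont
      fun_prop
    simp only [gS]
    rw [intervalIntegral.integral_const_mul, intervalIntegral.integral_sub
      (continuous_const.intervalIntegrable _ _) (hc.intervalIntegrable _ _), S.mean t ht0,
      intervalIntegral.integral_const]
    have e : Real.exp (-(κ * t)) = Real.exp (-t) * Real.exp ((1 - κ) * t) := by
      rw [← Real.exp_add]
      congr 1
      ring
    rw [e]
    simp only [smul_eq_mul]
    ring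
  have hce : Continuous fun t : ℝ => Real.exp (-t) := by fun_prop
  have hck : Continuous fun t : ℝ => Real.exp (-(κ * t)) := by fun_prop
  have hi1 : IntervalIntegrable (fun t : ℝ => 2 * π * Real.exp (-t)) volume (-1) τ :=
    (continuous_const.mul hce).intervalIntegrable _ _
  have hi2 : IntervalIntegrable (fun t : ℝ => 2 * π * S.C0 * Real.exp (-(κ * t))) volume (-1) τ :=
    (continuous_const.mul hck).intervalIntegrable _ _
  rw [h1, h2, h3, w0_integral, RR_integral S hκ, intervalIntegral.integral_sub hi1 hi2,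
    intervalIntegral.integral_const_mul,
    intervalIntegral.integral_const_mul, int_exp_neg, int_exp_mul hκ, neg_neg]
  have e1 : Real.exp τ * Real.exp (-τ) = 1 := by rw [← Real.exp_add]; simp
  have e2 : Real.exp 1 * Real.exp (-(1 - κ)) = Real.exp (-(κ * -1)) := by
    rw [← Real.exp_add]
    congr 1
    ring
  have e3 : Real.exp τ * Real.exp (-(κ * τ)) = Real.exp ((1 - κ) * τ) := by
    rw [← Real.exp_add]
    congr 1
    ring
  have hκ' : κ ≠ 0 := hκ.ne'
  rw [← e3, ← e2]
  field_simp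
  linear_combination (-κ) * e1

end

theorem pkS14' : GS14 := by
  intro κ hκ hκ1 S
  refine ⟨WS S, WS_smooth S, fun z hz => LL_WS S hκ hz, WS_per S, WS_even S, fun z hz => ?_,
    WS_bound S hκ hκ1, WS_mean S hκ⟩
  rw [D1WS S hz]
  ring

theorem pkS14 (_ : GExpo) (_ : GS9) : GS14 := pkS14'


end Pool.Agent.Helper95.S14
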