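import Pool.Agent.Helper25.PCap.GoalsT
import Pool.Agent.Helper25.PCap.GoalsTools

/-!
# Packet T1: the penalized solution
-/

set_option autoImplicit false

open MeasureTheory Set Filter Topology
open scoped ContDiff Real

noncomputable section

namespace Pool.Agent.Helper95.T1

open Pool.Agent.Helper25.PCap

theorem D1_fst {h : ℝ → ℝ} {h' : ℝ} {z : ℝ × ℝ} (hh : HasDerivAt h h' z.1) :
    D1 (fun z => h z.1) z = h' := by
  unfold D1
  have h1 : HasFDerivAt (fun z : ℝ × ℝ => h z.1) (h' • ContinuousLinearMap.fst ℝ ℝ ℝ) z :=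
    hh.comp_hasFDerivAt z hasFDerivAt_fst
  rw [h1.fderiv]
  simp

theorem D2_fst {h : ℝ → ℝ} {h' : ℝ} {z : ℝ × ℝ} (hh : HasDerivAt h h' z.1) :
    D2 (fun z => h z.1) z = 0 := by
  unfold D2
  have h1 : HasFDerivAt (fun z : ℝ × ℝ => h z.1) (h' • ContinuousLinearMap.fst ℝ ℝ ℝ) z :=
    hh.comp_hasFDerivAt z hasFDerivAt_fst
  rw [h1.fderiv]
  simp

theorem D1_sub {f g : ℝ × ℝ → ℝ} (hf : Differentiable ℝ f) (hg : Differentiable ℝ g) :
    D1 (fun z => f z - g z) = fun z => D1 f z - D1 g z := by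
  funext z
  unfold D1
  rw [fderiv_fun_sub (hf z) (hg z)]
  rfl

theorem D2_sub {f g : ℝ × ℝ → ℝ} (hf : Differentiable ℝ f) (hg : Differentiable ℝ g) :
    D2 (fun z => f z - g z) = fun z => D2 f z - D2 g z := by
  funext z
  unfold D2
  rw [fderiv_fun_sub (hf z) (hg z)]
  rfl

theorem D1_diff {f : ℝ × ℝ → ℝ} (hf : ContDiff ℝ 2 f) : Differentiable ℝ (D1 f) := by
  have h1 : ContDiff ℝ 1 (fderiv ℝ f) := hf.fderiv_right (by norm_num)
  exact (h1.clm_apply contDiff_const).differentiable (by norm_num)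

theorem D2_diff {f : ℝ × ℝ → ℝ} (hf : ContDiff ℝ 2 f) : Differentiable ℝ (D2 f) := by
  have h1 : ContDiff ℝ 1 (fderiv ℝ f) := hf.fderiv_right (by norm_num)
  exact (h1.clm_apply contDiff_const).differentiable (by norm_num)

theorem LL_sub {κ : ℝ} {f g : ℝ × ℝ → ℝ} (hf : ContDiff ℝ 2 f) (hg : ContDiff ℝ 2 g) (z : ℝ × ℝ) :
    LL κ (fun z => f z - g z) z = LL κ f z - LL κ g z := by
  unfold LL
  have hf1 : Differentiable ℝ f := hf.differentiable (by norm_num)
  have hg1 : Differentiable ℝ g := hg.differentiable (by norm_num)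
  rw [D1_sub hf1 hg1, D2_sub hf1 hg1, D1_sub (D1_diff hf) (D1_diff hg),
    D2_sub (D2_diff hf) (D2_diff hg)]
  ring

/-- The barrier. -/
def bar (C γ : ℝ) (z : ℝ × ℝ) : ℝ := 1 - C * Real.exp (γ * z.1)

theorem bar_smooth (C γ : ℝ) : ContDiff ℝ 2 (bar C γ) := by
  unfold bar
  fun_prop

theorem LL_bar (κ C γ : ℝ) (z : ℝ × ℝ) :
    LL κ (bar C γ) z = C * (γ * ((1 - κ) - γ)) * Real.exp (γ * z.1) := by
  have h1 : ∀ c d x : ℝ, HasDerivAt (fun s => c + d * Real.exp (γ * s))
      (d * γ * Real.exp (γ * x)) x := by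
    intro c d x
    have h2 : HasDerivAt (fun s : ℝ => γ * s) γ x := by
      simpa using (hasDerivAt_id x).const_mul γ
    have h3 := (h2.exp.const_mul d).const_add c
    convert! h3 using 1
    ring
  have e0 : bar C γ = fun z : ℝ × ℝ => 1 + (-C) * Real.exp (γ * z.1) := by
    funext z; unfold bar; ring
  have e1 : D1 (bar C γ) = fun z : ℝ × ℝ => 0 + (-C * γ) * Real.exp (γ * z.1) := by
    funext z
    rw [e0, D1_fst (h := fun s => 1 + (-C) * Real.exp (γ * s)) (h1 1 (-C) z.1)]
    ring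
  have e2 : D2 (bar C γ) = fun _ : ℝ × ℝ => 0 := by
    funext z
    rw [e0, D2_fst (h := fun s => 1 + (-C) * Real.exp (γ * s)) (h1 1 (-C) z.1)]
  unfold LL
  rw [e2, e1, D1_fst (h := fun s => 0 + (-C * γ) * Real.exp (γ * s)) (h1 0 (-C * γ) z.1)]
  have e3 : D2 (fun _ : ℝ × ℝ => (0 : ℝ)) z = 0 := by
    unfold D2
    simp
  rw [e3]
  ring

theorem pkT1 (hE : GE) (hc : GRQc) (hq : GMPq) (h : GT1a) : GT1 := by
  intro κ ρ₀ ρ₁ η H G hκ hκ1 hH hG hη
  obtain ⟨q, K, hq0, hC1, hK, hmono, hf0, hf1, hanti, hconv, hlow, hper⟩ :=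
    h κ ρ₀ ρ₁ η H G hκ hκ1 hH hG hη
  set f := fT κ H G η q with hf
  obtain ⟨hrange, hdec, hsm, heq, Z, hZ2, hZlim, hZeq⟩ :=
    hE κ q K hκ hκ1 hq0 f hC1 hK hmono hf0 hf1
  obtain ⟨-, -, hRmono, hRlin, -, hRtr, -⟩ := hc κ q hκ hκ1 hq0
  set Zk := Zseq κ q f with hZk
  have hsucc : ∀ k, Zk (k + 1) = Rq κ q (fun x => f x (Zk k x)) := fun k => rfl
  have hf01 : ∀ x z, 0 ≤ z → z ≤ 1 → |f x z| ≤ q := by
    intro x z hz0 hz1
    rw [abs_of_nonneg ((hf0 x).trans (hmono x 0 z le_rfl hz0 hz1))]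
    exact (hmono x z 1 hz0 hz1 le_rfl).trans (hf1 x)
  have hfcont : Continuous (fun p : (ℝ × ℝ) × ℝ => f p.1 p.2) := hC1.continuous
  have hZcont : ∀ k, Continuous (Zk k) := fun k => (hsm k).continuous
  -- measurability of the shifted integrands
  have hmeas : ∀ (k : ℕ) (a : ℝ × ℝ), Measurable (fun y => f (y + a) (Zk k (y + a))) := by
    intro k a
    have h1 : Continuous fun y : ℝ × ℝ => ((y + a, Zk k (y + a)) : (ℝ × ℝ) × ℝ) := by
      have := hZcont k
      fun_prop
    exact (hfcont.comp h1).measurable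
  have hbd : ∀ (k : ℕ) (a x : ℝ × ℝ), |f (x + a) (Zk k (x + a))| ≤ q := fun k a x =>
    hf01 _ _ (hrange k _).1 (hrange k _).2
  have hshift : ∀ (k : ℕ) (x a : ℝ × ℝ),
      Zk (k + 1) (x + a) = Rq κ q (fun y => f (y + a) (Zk k (y + a))) x := by
    intro k x a
    rw [hsucc, hRtr]
  -- periodicity
  have hperk : ∀ (k : ℕ) (x : ℝ × ℝ), Zk k (x + (0, 2 * π)) = Zk k x := by
    intro k
    induction k with
    | zero => intro x; rfl
    | succ k ih =>
      intro x
      rw [hshift, hsucc]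
      congr 1
      funext y
      rw [ih y]
      have := hper y.1 y.2 (Zk k y)
      have e : y + ((0 : ℝ), 2 * π) = (y.1, y.2 + 2 * π) := by
        ext <;> simp
      rw [e]
      exact this
  -- monotonicity in the first variable
  have hantik : ∀ (k : ℕ) (x : ℝ × ℝ) (a : ℝ), 0 ≤ a → Zk k (x + (a, 0)) ≤ Zk k x := by
    intro k
    induction k with
    | zero => intro x a _; exact le_rfl
    | succ k ih =>
      intro x a ha
      rw [hshift]
      have e0 : Zk (k + 1) x = Rq κ q (fun y => f (y + 0) (Zk k (y + 0))) x := by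
        rw [← hshift, add_zero]
      rw [e0]
      apply hRmono _ _ q (hmeas k _) (hmeas k 0) (hbd k _) (hbd k 0)
      intro y
      rw [add_zero]
      have h1 := hanti y.1 (y.1 + a) y.2 (Zk k (y + (a, 0))) (hrange k _).1 (by linarith)
      have e : y + (a, (0 : ℝ)) = (y.1 + a, y.2) := by
        ext <;> simp
      have h2 := hmono y (Zk k (y + (a, 0))) (Zk k y) (hrange k _).1 (ih y a ha) (hrange k _).2
      calc f (y + (a, 0)) (Zk k (y + (a, 0))) = f (y.1 + a, y.2) (Zk k (y + (a, 0))) := by rw [← e]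
        _ ≤ f (y.1, y.2) (Zk k (y + (a, 0))) := h1
        _ ≤ f y (Zk k y) := h2
  -- convexity
  have hconvk : ∀ (k : ℕ) (x : ℝ × ℝ) (t t' a b : ℝ), 0 < t → 0 < t' → 0 ≤ a → 0 ≤ b →
      a + b = 1 → Zk k (x + (Real.log (a * t + b * t'), 0))
        ≤ a * Zk k (x + (Real.log t, 0)) + b * Zk k (x + (Real.log t', 0)) := by
    intro k
    induction k with
    | zero =>
      intro x t t' a b _ _ _ _ hab
      change (1 : ℝ) ≤ a * 1 + b * 1
      linarith
    | succ k ih =>
      intro x t t' a b ht ht' ha hb hab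
      rw [hshift, hshift, hshift, ← hRlin _ _ q a b (hmeas k _) (hmeas k _) (hbd k _) (hbd k _) x]
      have hm2 : Measurable (fun y => a * f (y + (Real.log t, 0)) (Zk k (y + (Real.log t, 0)))
          + b * f (y + (Real.log t', 0)) (Zk k (y + (Real.log t', 0)))) :=
        ((hmeas k _).const_mul a).add ((hmeas k _).const_mul b)
      apply hRmono _ _ q (hmeas k _) hm2 (hbd k _)
      · intro y
        have h1 := abs_le.1 (hbd k (Real.log t, 0) y)
        have h2 := abs_le.1 (hbd k (Real.log t', 0) y)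
        rw [abs_le]
        constructor
        · nlinarith [mul_le_mul_of_nonneg_left h1.1 ha, mul_le_mul_of_nonneg_left h2.1 hb]
        · nlinarith [mul_le_mul_of_nonneg_left h1.2 ha, mul_le_mul_of_nonneg_left h2.2 hb]
      · intro y
        have e : ∀ s : ℝ, y + (s, (0 : ℝ)) = (y.1 + s, y.2) := by
          intro s
          ext <;> simp
        have h3 := hconv y t t' (Zk k (y + (Real.log t, 0))) (Zk k (y + (Real.log t', 0))) a b
          ht ht' (hrange k _).1 (hrange k _).1 ha hb hab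
        have h4 := ih y t t' a b ht ht' ha hb hab
        have h5 : a * Zk k (y + (Real.log t, 0)) + b * Zk k (y + (Real.log t', 0)) ≤ 1 := by
          have h6 := (hrange k (y + (Real.log t, 0))).2
          have h7 := (hrange k (y + (Real.log t', 0))).2
          nlinarith
        have h8 := hmono (y + (Real.log (a * t + b * t'), 0)) _ _ (hrange k _).1 h4 h5
        refine h8.trans ?_
        rw [e (Real.log (a * t + b * t')), e (Real.log t), e (Real.log t')]
        rw [e (Real.log t), e (Real.log t')] at h3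
        exact h3
  -- the barrier
  set γ := (1 - κ) / 2 with hγ
  set C := max 1 (4 * κ * ρ₁ / (1 - κ) ^ 2) with hC
  have hε : 0 < 1 - κ := by linarith
  have hγ0 : 0 < γ := by positivity
  have hγ1 : γ < 1 := by rw [hγ]; linarith
  have hC1' : 1 ≤ C := le_max_left _ _
  have hρ1 : 0 ≤ ρ₁ := by
    obtain ⟨_, _, hρ0, hρ⟩ := hH
    linarith [(hρ 0).1, (hρ 0).2]
  have hC2 : κ * ρ₁ ≤ C * (γ * ((1 - κ) - γ)) := by
    have h1 : 4 * κ * ρ₁ / (1 - κ) ^ 2 ≤ C := le_max_right _ _
    rw [div_le_iff₀ (by positivity)] at h1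
    rw [hγ]
    nlinarith
  have hbark : ∀ (k : ℕ) (z : ℝ × ℝ), bar C γ z ≤ Zk k z := by
    intro k
    induction k with
    | zero =>
      intro z
      change bar C γ z ≤ 1
      unfold bar
      have := Real.exp_pos (γ * z.1)
      nlinarith
    | succ k ih =>
      have hmain := hq κ q hκ hκ1 hq0 (fun z => bar C γ z - Zk (k + 1) z) 1
        ((bar_smooth C γ).continuous.sub (hZcont _)) ?_ ?_
      · intro z
        have := hmain z
        linarith
      · intro z
        have h1 := (hrange (k + 1) z).1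
        have h2 := Real.exp_pos (γ * z.1)
        simp only [bar]
        nlinarith
      · intro z hz
        have hz' : Zk (k + 1) z < bar C γ z := by
          linarith
        refine ⟨((bar_smooth C γ).sub (hsm (k + 1))).contDiffAt, ?_⟩
        rw [LL_sub (bar_smooth C γ) (hsm (k + 1)), heq, LL_bar]
        have hb0 : 0 < bar C γ z := (hrange (k + 1) z).1.trans_lt hz'
        have hexp : Real.exp (γ * z.1) < 1 := by
          unfold bar at hb0
          have := Real.exp_pos (γ * z.1)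
          nlinarith
        have hneg : z.1 < 0 := by
          have h1 : γ * z.1 < 0 := by
            rw [← Real.exp_lt_one_iff]
            exact hexp
          by_contra hcon
          push Not at hcon
          have := mul_nonneg hγ0.le hcon
          linarith
        have hexp2 : Real.exp z.1 ≤ Real.exp (γ * z.1) := by
          apply Real.exp_le_exp.2
          nlinarith
        have h3 : κ * Real.exp z.1 * ρ₁ ≤ C * (γ * ((1 - κ) - γ)) * Real.exp (γ * z.1) := by
          have h4 : κ * ρ₁ * Real.exp z.1 ≤ κ * ρ₁ * Real.exp (γ * z.1) :=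
            mul_le_mul_of_nonneg_left hexp2 (by positivity)
          have h5 := mul_le_mul_of_nonneg_right hC2 (Real.exp_pos (γ * z.1)).le
          linarith
        have hb1 : bar C γ z ≤ 1 := (ih z).trans (hrange k z).2
        have h6 := hlow z (bar C γ z) hb0.le hb1
        have h7 := hmono z _ _ hb0.le (ih z) (hrange k z).2
        nlinarith
  -- conclusion
  refine ⟨Z, hZ2, fun x => ⟨?_, ?_⟩, ?_, ?_, ?_, ?_, ?_⟩
  · exact ge_of_tendsto' (hZlim x) fun k => (hrange k x).1
  · exact le_of_tendsto' (hZlim x) fun k => (hrange k x).2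
  · intro τ θ
    have h1 := hZlim (τ, θ + 2 * π)
    have h2 := hZlim (τ, θ)
    refine tendsto_nhds_unique h1 (h2.congr fun k => ?_)
    rw [← hperk k (τ, θ)]
    congr 1
    ext <;> simp
  · intro z
    rw [hZeq z, hf]
    unfold fT
    ring
  · intro τ τ' θ hττ
    refine le_of_tendsto_of_tendsto' (hZlim (τ', θ)) (hZlim (τ, θ)) fun k => ?_
    have h1 := hantik k (τ, θ) (τ' - τ) (by linarith)
    have e : ((τ, θ) : ℝ × ℝ) + (τ' - τ, 0) = (τ', θ) := by
      ext <;> simp
    rwa [e] at h1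
  · intro θ
    refine ⟨convex_Ioi 0, fun t ht t' ht' a b ha hb hab => ?_⟩
    have h1 := hZlim (Real.log (a * t + b * t'), θ)
    have h2 := ((hZlim (Real.log t, θ)).const_mul a).add ((hZlim (Real.log t', θ)).const_mul b)
    refine le_of_tendsto_of_tendsto' h1 h2 fun k => ?_
    have h3 := hconvk k (0, θ) t t' a b ht ht' ha hb hab
    have e : ∀ s : ℝ, ((0, θ) : ℝ × ℝ) + (s, 0) = (s, θ) := by
      intro s
      ext <;> simp
    rw [e, e, e] at h3
    exact h3
  · intro z
    exact ge_of_tendsto' (hZlim z) fun k => hbark k z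


end Pool.Agent.Helper95.T1
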